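import Mathlib
import Pool.Agent.H378R2.M7t

open Finset Filter
open scoped ContDiff

/-! Module F1 of TEAM PG: the sieve bounds of H378R2 for a general coprimality set. -/

namespace Pool.Agent.H398R2.PG

open Pool.Agent.H378R2

theorem S1_boundE (h5 : SieveAsymp) {K B : ℕ} (f : Fin B → ℝ → ℝ) (c : Fin B → ℝ) (A : Finset (Fin K → Fin B))
    (hsm : ∀ l, ContDiff ℝ ∞ (f l)) (hcs : ∀ l, HasCompactSupport (f l)) (hf0 : ∀ l x, c l < x → f l x = 0)
    (hc : ∀ l, 0 ≤ c l ∧ c l ≤ 1 / 2) (hA : ∀ a ∈ A, ∑ j, c (a j) ≤ 1) (hf1 : ∀ l x, |f l x| ≤ 1)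
    (ε1 : ℝ) (hε1 : 0 < ε1) :
    ∀ᶠ X : ℝ in atTop, ∀ (ps : ℕ) (S : Finset ℕ) (a0 : ℕ) (t : Fin K → ℕ), GoodS X S →
      ∀ E : Finset ℕ, EE X S ps ⊆ E → E ⊆ Esup X ps →
      (∀ i j, i ≠ j → ∀ p : ℕ, p.Prime → p ∉ E → ¬ (p : ℤ) ∣ (t i : ℤ) - t j) →
      ∑ n ∈ Icc 1 ⌊3 * X⌋₊, nu X (WW X S ps) a0 n *
          sqw E X f A (fun j => (n : ℤ) + t j) ^ 2 ≤
        (MPhi X * (1 / (WW X S ps : ℝ))) * (1 / (LL X * BE E) ^ K) * (II f A + ε1) +
          (A.card : ℝ) ^ 2 * (5 * Real.exp (2 * LL X)) := by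
  classical
  have hev : ∀ᶠ X : ℝ in atTop, ∀ a ∈ A, ∀ b ∈ A, ∀ (ps : ℕ) (E : Fin K → Finset ℕ) (w : ℕ → Fin K → ℝ),
      (∀ j, E j ⊆ Esup X ps) → (∀ j, ∀ p : ℕ, p.Prime → p ≤ z2 X → p ∈ E j) →
      (∀ j, ∀ p : ℕ, p.Prime → |w p j - 1 / p| ≤ 2 / (p : ℝ) ^ 2) →
      |(∏ j, (LL X * BE (E j))) * sieveSum K (fun j => f (a j)) (fun j => f (b j)) (LL X) E w (RR X) -
        ∏ j, DD (f (a j)) (f (b j))| ≤ ε1 / ((A.card : ℝ) ^ 2 + 1) := by
    rw [Filter.eventually_all_finset]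
    intro a _
    rw [Filter.eventually_all_finset]
    intro b _
    exact asymp1 h5 K (fun j => f (a j)) (fun j => f (b j)) (fun j => hsm _) (fun j => hsm _)
      (fun j => hcs _) (fun j => hcs _) (fun j x hx => hf0 _ x ((hc _).2.trans_lt hx))
      (fun j x hx => hf0 _ x ((hc _).2.trans_lt hx)) _ (by positivity)
  filter_upwards [hev, EE_facts 0, size_aux, eventually_ge_atTop 4, LL_tendsto.eventually_ge_atTop 1]
    with X h1 h2 h3 h4 h6
  intro ps S a0 t hS E hEE hEsup ht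
  set W := WW X S ps with hW
  have hWpos : 0 < W := WW_pos X S ps
  have hWr : (0 : ℝ) < W := by exact_mod_cast hWpos
  have hBE : 0 < BE E := BE_pos fun p hp => Esup_prime (hEsup hp)
  have hLB : 0 < LL X * BE E := by positivity
  have hMnn : 0 ≤ MPhi X := Finset.sum_nonneg fun n _ => Phi_nonneg _
  have hone : ∀ a ∈ A, ∀ b ∈ A, ∑ n ∈ Icc 1 ⌊3 * X⌋₊, nu X W a0 n *
      ∏ j, (VVm E (RR X) (LL X) (f (a j)) ((n : ℤ) + t j) * VVm E (RR X) (LL X) (f (b j)) ((n : ℤ) + t j)) ≤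
      (MPhi X * (1 / (W : ℝ))) * (1 / (LL X * BE E) ^ K) *
        (∏ j, DD (f (a j)) (f (b j)) + ε1 / ((A.card : ℝ) ^ 2 + 1)) + 5 * Real.exp (2 * LL X) := by
    intro a ha b hb
    have hsum : ∑ j, c (a j) + ∑ j, c (b j) ≤ 2 := by
      have := hA a ha
      have := hA b hb
      linarith
    have k1 := sum1 X h4 W a0 hWpos (fun j => f (a j)) (fun j => f (b j)) (LL X) 1 (by linarith) zero_le_one
      (fun j => c (a j)) (fun j => c (b j)) (fun j x => hf1 _ x) (fun j x => hf1 _ x)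
      (fun j x hx => hf0 _ x hx) (fun j x hx => hf0 _ x hx) (fun _ => E) (RR X) (fun _ => 1)
      (fun j => (t j : ℤ)) (fun _ p hp h => not_dvd_WW hp (fun h' => h (hEE h')))
      (fun _ p hp _ h => hp.one_lt.ne' (Nat.dvd_one.1 h))
      (by
        intro i j hij p hp hpE _ n hh
        apply ht i j hij p hp hpE
        have := dvd_sub hh.1 hh.2
        have h7 : ((1 : ℕ) : ℤ) * n + t i - (((1 : ℕ) : ℤ) * n + t j) = t i - t j := by ring
        rwa [h7] at this)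
      (h3 S ps _ (by linarith))
    have k2 := h1 a ha b hb ps (fun _ => E) (fun p _ => 1 / (p : ℝ)) (fun _ => hEsup)
      (fun _ p hp hpl => hEE (EE_small hS h2.2.1 hp hpl)) (fun _ p _ => w_one p)
    have k3 : ∏ j : Fin K, (LL X * BE E) = (LL X * BE E) ^ K := by
      rw [Finset.prod_const, Finset.card_univ, Fintype.card_fin]
    rw [k3] at k2
    have k4 := (abs_le.1 k1).2
    have k5 := (abs_le.1 k2).2
    set SS := sieveSum K (fun j => f (a j)) (fun j => f (b j)) (LL X) (fun _ => E) (fun p _ => 1 / (p : ℝ)) (RR X)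
    have k6 : SS ≤ (1 / (LL X * BE E) ^ K) * (∏ j, DD (f (a j)) (f (b j)) + ε1 / ((A.card : ℝ) ^ 2 + 1)) := by
      rw [one_div, ← div_eq_inv_mul, le_div_iff₀ (by positivity)]
      linarith
    have k7 : MPhi X * (1 / (W : ℝ)) * SS ≤ (MPhi X * (1 / (W : ℝ))) * ((1 / (LL X * BE E) ^ K) *
        (∏ j, DD (f (a j)) (f (b j)) + ε1 / ((A.card : ℝ) ^ 2 + 1))) :=
      mul_le_mul_of_nonneg_left k6 (by positivity)
    have k8 : 5 * (1 : ℝ) ^ (2 * K) * Real.exp (LL X * (∑ j, c (a j) + ∑ j, c (b j))) ≤ 5 * Real.exp (2 * LL X) := by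
      rw [one_pow, mul_one]
      have : Real.exp (LL X * (∑ j, c (a j) + ∑ j, c (b j))) ≤ Real.exp (2 * LL X) := by
        apply Real.exp_le_exp.2
        nlinarith
      linarith
    have k9 : ∑ n ∈ Icc 1 ⌊3 * X⌋₊, nu X W a0 n *
      ∏ j, (VVm E (RR X) (LL X) (f (a j)) ((n : ℤ) + t j) * VVm E (RR X) (LL X) (f (b j)) ((n : ℤ) + t j)) =
      ∑ n ∈ Icc 1 ⌊3 * X⌋₊, (if n ≡ a0 [MOD W] then Phi (n / X) else 0) *
        ∏ j, (VVm E (RR X) (LL X) (f (a j)) (((1 : ℕ) : ℤ) * n + t j) *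
          VVm E (RR X) (LL X) (f (b j)) (((1 : ℕ) : ℤ) * n + t j)) := by
      refine Finset.sum_congr rfl fun n _ => ?_
      unfold nu
      simp only [Nat.cast_one, one_mul]
    rw [k9]
    linarith
  simp_rw [sqw_sq, Finset.mul_sum]
  rw [Finset.sum_comm]
  have hswap : ∀ a ∈ A, ∑ n ∈ Icc 1 ⌊3 * X⌋₊, ∑ b ∈ A, nu X W a0 n *
      ∏ j, (VVm E (RR X) (LL X) (f (a j)) ((n : ℤ) + t j) * VVm E (RR X) (LL X) (f (b j)) ((n : ℤ) + t j)) ≤
      ∑ b ∈ A, ((MPhi X * (1 / (W : ℝ))) * (1 / (LL X * BE E) ^ K) *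
        (∏ j, DD (f (a j)) (f (b j)) + ε1 / ((A.card : ℝ) ^ 2 + 1)) + 5 * Real.exp (2 * LL X)) := by
    intro a ha
    rw [Finset.sum_comm]
    exact Finset.sum_le_sum fun b hb => hone a ha b hb
  refine (Finset.sum_le_sum hswap).trans ?_
  simp_rw [Finset.sum_add_distrib, ← Finset.mul_sum, Finset.sum_add_distrib, Finset.sum_const, nsmul_eq_mul]
  have hfin : ((A.card : ℝ) * ((A.card : ℝ) * (ε1 / ((A.card : ℝ) ^ 2 + 1)))) ≤ ε1 := by
    have : (A.card : ℝ) * ((A.card : ℝ) * (ε1 / ((A.card : ℝ) ^ 2 + 1))) =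
        ((A.card : ℝ) ^ 2 / ((A.card : ℝ) ^ 2 + 1)) * ε1 := by ring
    rw [this]
    have h7 : (A.card : ℝ) ^ 2 / ((A.card : ℝ) ^ 2 + 1) ≤ 1 := by
      rw [div_le_one (by positivity)]; linarith
    nlinarith
  have hcoef : 0 ≤ (MPhi X * (1 / (W : ℝ))) * (1 / (LL X * BE E) ^ K) := by positivity
  have : (MPhi X * (1 / (W : ℝ))) * (1 / (LL X * BE E) ^ K) *
      (∑ a ∈ A, ∑ b ∈ A, ∏ j, DD (f (a j)) (f (b j)) +
        (A.card : ℝ) * ((A.card : ℝ) * (ε1 / ((A.card : ℝ) ^ 2 + 1)))) ≤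
      (MPhi X * (1 / (W : ℝ))) * (1 / (LL X * BE E) ^ K) * (II f A + ε1) := by
    apply mul_le_mul_of_nonneg_left _ hcoef
    unfold II
    linarith
  calc _ = (MPhi X * (1 / (W : ℝ))) * (1 / (LL X * BE E) ^ K) *
      (∑ a ∈ A, ∑ b ∈ A, ∏ j, DD (f (a j)) (f (b j)) +
        (A.card : ℝ) * ((A.card : ℝ) * (ε1 / ((A.card : ℝ) ^ 2 + 1)))) +
          (A.card : ℝ) ^ 2 * (5 * Real.exp (2 * LL X)) := by ring
    _ ≤ _ := by linarith

theorem T_boundE (h5 : SieveAsymp) {K B : ℕ} (f : Fin B → ℝ → ℝ) (c : Fin B → ℝ) (A : Finset (Fin K → Fin B))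
    (hsm : ∀ l, ContDiff ℝ ∞ (f l)) (hcs : ∀ l, HasCompactSupport (f l)) (hf0 : ∀ l x, c l < x → f l x = 0)
    (hc : ∀ l, 0 ≤ c l ∧ c l ≤ 1 / 2) (hA : ∀ a ∈ A, ∑ j, c (a j) ≤ 1) (hf1 : ∀ l x, |f l x| ≤ 1)
    (ε1 : ℝ) (hε1 : 0 < ε1) :
    ∀ᶠ X : ℝ in atTop, ∀ (ps : ℕ) (S : Finset ℕ) (a0 : ℕ) (t : Fin K → ℕ), GoodS X S →
      ∀ E : Finset ℕ, EE X S ps ⊆ E → E ⊆ Esup X ps →
      (∀ i j, i ≠ j → ∀ p : ℕ, p.Prime → p ∉ E → ¬ (p : ℤ) ∣ (t i : ℤ) - t j) →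
      ∀ (E' : Finset ℕ) (c0 : ℕ) (h0 : ℤ), EE X S ps ⊆ E' → E' ⊆ Esup X ps →
      (∀ p : ℕ, p.Prime → p ∉ E' → ¬ p ∣ c0) →
      (∀ j, ∀ p : ℕ, p.Prime → p ∉ E' → ¬ (p : ℤ) ∣ (c0 : ℤ) * t j - h0) →
      ∑ n ∈ Icc 1 ⌊3 * X⌋₊, nu X (WW X S ps) a0 n *
          (sqw E X f A (fun j => (n : ℤ) + t j) ^ 2 *
            (VVm E' (RR X) (LL X) fst ((c0 : ℤ) * n + h0)) ^ 2) ≤
        (MPhi X * (1 / (WW X S ps : ℝ))) * (1 / (LL X * BE E) ^ K) * (1 / (LL X * BE E')) *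
          (II f A * (2 * gam) + ε1) +
          (A.card : ℝ) ^ 2 * (5 * Real.exp (3 * LL X)) := by
  classical
  have hev : ∀ᶠ X : ℝ in atTop, ∀ a ∈ A, ∀ b ∈ A, ∀ (ps : ℕ) (E : Fin (K + 1) → Finset ℕ)
      (w : ℕ → Fin (K + 1) → ℝ),
      (∀ j, E j ⊆ Esup X ps) → (∀ j, ∀ p : ℕ, p.Prime → p ≤ z2 X → p ∈ E j) →
      (∀ j, ∀ p : ℕ, p.Prime → |w p j - 1 / p| ≤ 2 / (p : ℝ) ^ 2) →
      |(∏ j, (LL X * BE (E j))) * sieveSum (K + 1) (Fin.cons fst (fun j => f (a j)))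
        (Fin.cons fst (fun j => f (b j))) (LL X) E w (RR X) -
        ∏ j, DD ((Fin.cons fst (fun j => f (a j)) : Fin (K + 1) → ℝ → ℝ) j)
          ((Fin.cons fst (fun j => f (b j)) : Fin (K + 1) → ℝ → ℝ) j)| ≤ ε1 / ((A.card : ℝ) ^ 2 + 1) := by
    rw [Filter.eventually_all_finset]
    intro a _
    rw [Filter.eventually_all_finset]
    intro b _
    have g1 : ∀ a : Fin K → Fin B, ∀ j, ContDiff ℝ ∞ ((Fin.cons fst (fun j => f (a j)) : Fin (K + 1) → ℝ → ℝ) j) := by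
      intro a j
      refine Fin.cases ?_ (fun i => ?_) j
      · exact hs_smooth _
      · exact hsm _
    have g2 : ∀ a : Fin K → Fin B, ∀ j, HasCompactSupport ((Fin.cons fst (fun j => f (a j)) : Fin (K + 1) → ℝ → ℝ) j) := by
      intro a j
      refine Fin.cases ?_ (fun i => ?_) j
      · exact hs_compact (by norm_num)
      · exact hcs _
    have g3 : ∀ a : Fin K → Fin B, ∀ j x, 1 / 2 < x → ((Fin.cons fst (fun j => f (a j)) : Fin (K + 1) → ℝ → ℝ) j) x = 0 := by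
      intro a j x hx
      refine Fin.cases ?_ (fun i => ?_) j
      · exact hs_zero (by norm_num) (hx.le.trans (le_abs_self x))
      · exact hf0 _ x ((hc _).2.trans_lt hx)
    exact asymp1 h5 (K + 1) _ _ (g1 a) (g1 b) (g2 a) (g2 b) (g3 a) (g3 b) _ (by positivity)
  filter_upwards [hev, EE_facts 0, size_aux, eventually_ge_atTop 4, LL_tendsto.eventually_ge_atTop 1]
    with X h1 h2 h3 h4 h6
  intro ps S a0 t hS E hEE hEsup ht E' c0 h0 hEE' hE'sup hE'c hE'res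
  set W := WW X S ps with hW
  have hWpos : 0 < W := WW_pos X S ps
  have hWr : (0 : ℝ) < W := by exact_mod_cast hWpos
  have hBE : 0 < BE E := BE_pos fun p hp => Esup_prime (hEsup hp)
  have hBE' : 0 < BE E' := BE_pos fun p hp => Esup_prime (hE'sup hp)
  have hLB : 0 < LL X * BE E := by positivity
  have hLB' : 0 < LL X * BE E' := by positivity
  have hMnn : 0 ≤ MPhi X := Finset.sum_nonneg fun n _ => Phi_nonneg _
  have hone : ∀ a ∈ A, ∀ b ∈ A, ∑ n ∈ Icc 1 ⌊3 * X⌋₊, nu X W a0 n *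
      ((∏ j, (VVm E (RR X) (LL X) (f (a j)) ((n : ℤ) + t j) * VVm E (RR X) (LL X) (f (b j)) ((n : ℤ) + t j))) *
        (VVm E' (RR X) (LL X) fst ((c0 : ℤ) * n + h0)) ^ 2) ≤
      (MPhi X * (1 / (W : ℝ))) * (1 / (LL X * BE E) ^ K) * (1 / (LL X * BE E')) *
        ((∏ j, DD (f (a j)) (f (b j))) * (2 * gam) + ε1 / ((A.card : ℝ) ^ 2 + 1)) + 5 * Real.exp (3 * LL X) := by
    intro a ha b hb
    have hsum : ∑ j, c (a j) + ∑ j, c (b j) ≤ 2 := by
      have := hA a ha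
      have := hA b hb
      linarith
    have hsum' : ∑ j, (Fin.cons (1 / 2) (fun j => c (a j)) : Fin (K + 1) → ℝ) j +
        ∑ j, (Fin.cons (1 / 2) (fun j => c (b j)) : Fin (K + 1) → ℝ) j ≤ 3 := by
      rw [Fin.sum_univ_succ, Fin.sum_univ_succ]
      simp only [Fin.cons_zero, Fin.cons_succ]
      linarith
    have g4 : ∀ a : Fin K → Fin B, ∀ j x, |((Fin.cons fst (fun j => f (a j)) : Fin (K + 1) → ℝ → ℝ) j) x| ≤ 1 := by
      intro a j x
      refine Fin.cases ?_ (fun i => ?_) j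
      · exact hs_abs_le _ _
      · exact hf1 _ _
    have g5 : ∀ a : Fin K → Fin B, ∀ j x, (Fin.cons (1 / 2) (fun j => c (a j)) : Fin (K + 1) → ℝ) j < x →
        ((Fin.cons fst (fun j => f (a j)) : Fin (K + 1) → ℝ → ℝ) j) x = 0 := by
      intro a j x
      refine Fin.cases ?_ (fun i => ?_) j
      · intro hx
        exact hs_zero (by norm_num) (hx.le.trans (le_abs_self x))
      · intro hx
        exact hf0 _ x hx
    have k1 := sum1 X h4 W a0 hWpos (Fin.cons fst (fun j => f (a j)) : Fin (K + 1) → ℝ → ℝ)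
      (Fin.cons fst (fun j => f (b j)) : Fin (K + 1) → ℝ → ℝ) (LL X) 1 (by linarith) zero_le_one
      (Fin.cons (1 / 2) (fun j => c (a j)) : Fin (K + 1) → ℝ) (Fin.cons (1 / 2) (fun j => c (b j)) : Fin (K + 1) → ℝ)
      (g4 a) (g4 b) (g5 a) (g5 b)
      (Fin.cons E' (fun _ => E) : Fin (K + 1) → Finset ℕ) (RR X)
      (Fin.cons c0 (fun _ => 1) : Fin (K + 1) → ℕ)
      (Fin.cons h0 (fun j => (t j : ℤ)) : Fin (K + 1) → ℤ)
      (by
        intro j p hp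
        refine Fin.cases ?_ (fun i => ?_) j
        · intro h; exact not_dvd_WW hp (fun h' => h (hEE' h'))
        · intro h; exact not_dvd_WW hp (fun h' => h (hEE h')))
      (by
        intro j p hp
        refine Fin.cases ?_ (fun i => ?_) j
        · intro h; exact hE'c p hp h
        · intro _ h; exact hp.one_lt.ne' (Nat.dvd_one.1 h))
      (by
        intro i j
        refine Fin.cases ?_ (fun i => ?_) i
        · refine Fin.cases ?_ (fun j => ?_) j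
          · intro h; exact absurd rfl h
          · intro _ p hp hpE' _ n hh
            simp only [Fin.cons_zero, Fin.cons_succ] at hh
            apply hE'res j p hp hpE'
            have h7 : (c0 : ℤ) * t j - h0 = c0 * (((1 : ℕ) : ℤ) * n + t j) - (c0 * n + h0) := by
              push_cast; ring
            rw [h7]
            exact dvd_sub (Dvd.dvd.mul_left hh.2 _) hh.1
        · refine Fin.cases ?_ (fun j => ?_) j
          · intro _ p hp _ hpE' n hh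
            simp only [Fin.cons_zero, Fin.cons_succ] at hh
            apply hE'res i p hp hpE'
            have h7 : (c0 : ℤ) * t i - h0 = c0 * (((1 : ℕ) : ℤ) * n + t i) - (c0 * n + h0) := by
              push_cast; ring
            rw [h7]
            exact dvd_sub (Dvd.dvd.mul_left hh.1 _) hh.2
          · intro hij p hp hpE _ n hh
            simp only [Fin.cons_succ] at hh hpE
            have hij' : i ≠ j := fun h => hij (by rw [h])
            apply ht i j hij' p hp hpE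
            have := dvd_sub hh.1 hh.2
            have h7 : ((1 : ℕ) : ℤ) * n + t i - (((1 : ℕ) : ℤ) * n + t j) = t i - t j := by ring
            rwa [h7] at this)
      (h3 S ps _ (by linarith))
    have k2 := h1 a ha b hb ps (Fin.cons E' (fun _ => E) : Fin (K + 1) → Finset ℕ) (fun p _ => 1 / (p : ℝ))
      (by
        intro j
        refine Fin.cases ?_ (fun i => ?_) j
        · exact hE'sup
        · exact hEsup)
      (by
        intro j p hp hpl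
        have h8 := EE_small (ps := ps) hS h2.2.1 hp hpl
        refine Fin.cases ?_ (fun i => ?_) j
        · exact hEE' h8
        · exact hEE h8)
      (fun _ p _ => w_one p)
    have k3 : ∏ j : Fin (K + 1), (LL X * BE ((Fin.cons E' (fun _ => E) : Fin (K + 1) → Finset ℕ) j)) =
        (LL X * BE E') * (LL X * BE E) ^ K := by
      rw [Fin.prod_univ_succ]
      simp only [Fin.cons_zero, Fin.cons_succ]
      rw [Finset.prod_const, Finset.card_univ, Fintype.card_fin]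
    have k3' : ∏ j, DD ((Fin.cons fst (fun j => f (a j)) : Fin (K + 1) → ℝ → ℝ) j)
          ((Fin.cons fst (fun j => f (b j)) : Fin (K + 1) → ℝ → ℝ) j) =
        (∏ j, DD (f (a j)) (f (b j))) * (2 * gam) := by
      rw [Fin.prod_univ_succ]
      simp only [Fin.cons_zero, Fin.cons_succ]
      rw [DD_fst]
      ring
    rw [k3, k3'] at k2
    have k4 := (abs_le.1 k1).2
    have k5 := (abs_le.1 k2).2
    set SS := sieveSum (K + 1) (Fin.cons fst (fun j => f (a j)))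
        (Fin.cons fst (fun j => f (b j))) (LL X) (Fin.cons E' (fun _ => E)) (fun p _ => 1 / (p : ℝ)) (RR X)
    have k6 : SS ≤ (1 / (LL X * BE E) ^ K) * (1 / (LL X * BE E')) *
        ((∏ j, DD (f (a j)) (f (b j))) * (2 * gam) + ε1 / ((A.card : ℝ) ^ 2 + 1)) := by
      rw [one_div_mul_one_div, one_div, ← div_eq_inv_mul, le_div_iff₀ (by positivity)]
      linarith
    have k7 : MPhi X * (1 / (W : ℝ)) * SS ≤ (MPhi X * (1 / (W : ℝ))) * ((1 / (LL X * BE E) ^ K) * (1 / (LL X * BE E')) *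
        ((∏ j, DD (f (a j)) (f (b j))) * (2 * gam) + ε1 / ((A.card : ℝ) ^ 2 + 1))) :=
      mul_le_mul_of_nonneg_left k6 (by positivity)
    have k8 : 5 * (1 : ℝ) ^ (2 * (K + 1)) * Real.exp (LL X * (∑ j, (Fin.cons (1 / 2) (fun j => c (a j)) : Fin (K + 1) → ℝ) j +
        ∑ j, (Fin.cons (1 / 2) (fun j => c (b j)) : Fin (K + 1) → ℝ) j)) ≤ 5 * Real.exp (3 * LL X) := by
      rw [one_pow, mul_one]
      have : Real.exp (LL X * (∑ j, (Fin.cons (1 / 2) (fun j => c (a j)) : Fin (K + 1) → ℝ) j +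
        ∑ j, (Fin.cons (1 / 2) (fun j => c (b j)) : Fin (K + 1) → ℝ) j)) ≤ Real.exp (3 * LL X) := by
        apply Real.exp_le_exp.2
        nlinarith
      linarith
    have k9 : ∑ n ∈ Icc 1 ⌊3 * X⌋₊, nu X W a0 n *
      ((∏ j, (VVm E (RR X) (LL X) (f (a j)) ((n : ℤ) + t j) * VVm E (RR X) (LL X) (f (b j)) ((n : ℤ) + t j))) *
        (VVm E' (RR X) (LL X) fst ((c0 : ℤ) * n + h0)) ^ 2) =
      ∑ n ∈ Icc 1 ⌊3 * X⌋₊, (if n ≡ a0 [MOD W] then Phi (n / X) else 0) *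
        ∏ j, (VVm ((Fin.cons E' (fun _ => E) : Fin (K + 1) → Finset ℕ) j) (RR X) (LL X)
            ((Fin.cons fst (fun j => f (a j)) : Fin (K + 1) → ℝ → ℝ) j)
            (((Fin.cons c0 (fun _ => 1) : Fin (K + 1) → ℕ) j : ℤ) * n +
              (Fin.cons h0 (fun j => (t j : ℤ)) : Fin (K + 1) → ℤ) j) *
          VVm ((Fin.cons E' (fun _ => E) : Fin (K + 1) → Finset ℕ) j) (RR X) (LL X)
            ((Fin.cons fst (fun j => f (b j)) : Fin (K + 1) → ℝ → ℝ) j)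
            (((Fin.cons c0 (fun _ => 1) : Fin (K + 1) → ℕ) j : ℤ) * n +
              (Fin.cons h0 (fun j => (t j : ℤ)) : Fin (K + 1) → ℤ) j)) := by
      refine Finset.sum_congr rfl fun n _ => ?_
      unfold nu
      rw [Fin.prod_univ_succ]
      simp only [Fin.cons_zero, Fin.cons_succ, Nat.cast_one, one_mul]
      ring
    rw [k9]
    linarith
  simp_rw [sqw_sq, Finset.sum_mul, Finset.mul_sum]
  rw [Finset.sum_comm]
  have hswap : ∀ a ∈ A, ∑ n ∈ Icc 1 ⌊3 * X⌋₊, ∑ b ∈ A, nu X W a0 n *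
      ((∏ j, (VVm E (RR X) (LL X) (f (a j)) ((n : ℤ) + t j) * VVm E (RR X) (LL X) (f (b j)) ((n : ℤ) + t j))) *
        (VVm E' (RR X) (LL X) fst ((c0 : ℤ) * n + h0)) ^ 2) ≤
      ∑ b ∈ A, ((MPhi X * (1 / (W : ℝ))) * (1 / (LL X * BE E) ^ K) * (1 / (LL X * BE E')) *
        ((∏ j, DD (f (a j)) (f (b j))) * (2 * gam) + ε1 / ((A.card : ℝ) ^ 2 + 1)) + 5 * Real.exp (3 * LL X)) := by
    intro a ha
    rw [Finset.sum_comm]
    exact Finset.sum_le_sum fun b hb => hone a ha b hb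
  refine (Finset.sum_le_sum hswap).trans ?_
  simp_rw [Finset.sum_add_distrib, ← Finset.mul_sum, Finset.sum_add_distrib, Finset.sum_const, nsmul_eq_mul,
    ← Finset.sum_mul]
  have hfin : ((A.card : ℝ) * ((A.card : ℝ) * (ε1 / ((A.card : ℝ) ^ 2 + 1)))) ≤ ε1 := by
    have : (A.card : ℝ) * ((A.card : ℝ) * (ε1 / ((A.card : ℝ) ^ 2 + 1))) =
        ((A.card : ℝ) ^ 2 / ((A.card : ℝ) ^ 2 + 1)) * ε1 := by ring
    rw [this]
    have h7 : (A.card : ℝ) ^ 2 / ((A.card : ℝ) ^ 2 + 1) ≤ 1 := by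
      rw [div_le_one (by positivity)]; linarith
    nlinarith
  have hcoef : 0 ≤ (MPhi X * (1 / (W : ℝ))) * (1 / (LL X * BE E) ^ K) * (1 / (LL X * BE E')) := by positivity
  have : (MPhi X * (1 / (W : ℝ))) * (1 / (LL X * BE E) ^ K) * (1 / (LL X * BE E')) *
      ((∑ a ∈ A, ∑ b ∈ A, ∏ j, DD (f (a j)) (f (b j))) * (2 * gam) +
        (A.card : ℝ) * ((A.card : ℝ) * (ε1 / ((A.card : ℝ) ^ 2 + 1)))) ≤
      (MPhi X * (1 / (W : ℝ))) * (1 / (LL X * BE E) ^ K) * (1 / (LL X * BE E')) * (II f A * (2 * gam) + ε1) := by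
    apply mul_le_mul_of_nonneg_left _ hcoef
    unfold II
    linarith
  calc _ = (MPhi X * (1 / (W : ℝ))) * (1 / (LL X * BE E) ^ K) * (1 / (LL X * BE E')) *
      ((∑ a ∈ A, ∑ b ∈ A, ∏ j, DD (f (a j)) (f (b j))) * (2 * gam) +
        (A.card : ℝ) * ((A.card : ℝ) * (ε1 / ((A.card : ℝ) ^ 2 + 1)))) +
          (A.card : ℝ) ^ 2 * (5 * Real.exp (3 * LL X)) := by ring
    _ ≤ _ := by linarith

end Pool.Agent.H398R2.PG
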