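import Mathlib
import Pool.Agent.H398R2.PG.B
import Pool.Agent.H312R2.PG.Iface

open Finset Filter
open scoped ContDiff

/-! Module F1 of TEAM PG: the coprimality sets and the sum over the window. -/

namespace Pool.Agent.H398R2.PG

open Pool.Agent.H378R2

/-- the coprimality set of the tuple -/
noncomputable def Et {K : ℕ} (X : ℝ) (S : Finset ℕ) (ps : ℕ) (t : Fin K → ℕ) : Finset ℕ :=
  EE X S ps ∪ (univ : Finset (Fin K × Fin K)).biUnion (fun ij => ((t ij.1 : ℤ) - t ij.2).natAbs.primeFactors)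

/-- the coprimality set at the position `s` -/
noncomputable def Es {K : ℕ} (X : ℝ) (S : Finset ℕ) (ps : ℕ) (t : Fin K → ℕ) (s : ℕ) : Finset ℕ :=
  EE X S ps ∪ (univ : Finset (Fin K)).biUnion (fun j => ((t j : ℤ) - s).natAbs.primeFactors)

theorem EE_sub_Et {K : ℕ} (X : ℝ) (S : Finset ℕ) (ps : ℕ) (t : Fin K → ℕ) : EE X S ps ⊆ Et X S ps t :=
  Finset.subset_union_left

theorem EE_sub_Es {K : ℕ} (X : ℝ) (S : Finset ℕ) (ps : ℕ) (t : Fin K → ℕ) (s : ℕ) : EE X S ps ⊆ Es X S ps t s :=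
  Finset.subset_union_left

theorem natAbs_sub_le' (a b : ℕ) (M : ℝ) (ha : (a : ℝ) ≤ M) (hb : (b : ℝ) ≤ M) :
    ((((a : ℤ) - b).natAbs : ℕ) : ℝ) ≤ M := by
  have h1 : ((((a : ℤ) - b).natAbs : ℕ) : ℝ) = |(a : ℝ) - b| := by
    rw [Nat.cast_natAbs]; push_cast; rfl
  rw [h1, abs_le]
  have h2 : (0 : ℝ) ≤ a := Nat.cast_nonneg a
  have h3 : (0 : ℝ) ≤ b := Nat.cast_nonneg b
  constructor <;> linarith

theorem mem_Esup_of_le {X : ℝ} {ps p : ℕ} (hp : p.Prime) (h : p ≤ ⌊(2 * Real.log X) ^ 3⌋₊) : p ∈ Esup X ps := by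
  unfold Esup
  exact Finset.mem_union_left _ (mem_PP'.2 ⟨h, hp⟩)

theorem ev_T_cube (T : ℝ) : ∀ᶠ X : ℝ in atTop, T * Real.log X ≤ (2 * Real.log X) ^ 3 - 1 ∧ 1 ≤ Real.log X := by
  filter_upwards [Real.tendsto_log_atTop.eventually_ge_atTop (|T| + 1)] with X h
  have h1 : 1 ≤ Real.log X := by linarith [abs_nonneg T]
  have h2 := le_abs_self T
  refine ⟨?_, h1⟩
  set l := Real.log X
  have h3 : T * l ≤ l * l := by nlinarith
  nlinarith [mul_le_mul h1 h1 zero_le_one (by linarith : (0:ℝ) ≤ l)]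

theorem Es_sub {K : ℕ} (T : ℝ) : ∀ᶠ X : ℝ in atTop, ∀ (ps : ℕ) (S : Finset ℕ) (t : Fin K → ℕ) (s : ℕ),
    (∀ j, (t j : ℝ) ≤ T * Real.log X) → (s : ℝ) ≤ T * Real.log X → Es X S ps t s ⊆ Esup X ps := by
  filter_upwards [ev_T_cube T, EE_facts 0] with X h1 h2
  intro ps S t s ht hs
  unfold Es
  apply Finset.union_subset (EE_sub h2.2.2)
  intro p hp
  rw [Finset.mem_biUnion] at hp
  obtain ⟨j, _, hp⟩ := hp
  have hpp := Nat.prime_of_mem_primeFactors hp
  have hpd := Nat.le_of_mem_primeFactors hp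
  apply mem_Esup_of_le hpp
  apply Nat.le_floor
  have h3 := natAbs_sub_le' (t j) s _ (ht j) hs
  have h4 : (p : ℝ) ≤ ((((t j : ℤ) - s).natAbs : ℕ) : ℝ) := by exact_mod_cast hpd
  linarith [h1.1]

theorem Et_sub {K : ℕ} (T : ℝ) : ∀ᶠ X : ℝ in atTop, ∀ (ps : ℕ) (S : Finset ℕ) (t : Fin K → ℕ),
    (∀ j, (t j : ℝ) ≤ T * Real.log X) → Et X S ps t ⊆ Esup X ps := by
  filter_upwards [ev_T_cube T, EE_facts 0] with X h1 h2
  intro ps S t ht
  unfold Et
  apply Finset.union_subset (EE_sub h2.2.2)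
  intro p hp
  rw [Finset.mem_biUnion] at hp
  obtain ⟨ij, _, hp⟩ := hp
  have hpp := Nat.prime_of_mem_primeFactors hp
  have hpd := Nat.le_of_mem_primeFactors hp
  apply mem_Esup_of_le hpp
  apply Nat.le_floor
  have h3 := natAbs_sub_le' (t ij.1) (t ij.2) _ (ht ij.1) (ht ij.2)
  have h4 : (p : ℝ) ≤ ((((t ij.1 : ℤ) - t ij.2).natAbs : ℕ) : ℝ) := by exact_mod_cast hpd
  linarith [h1.1]

theorem Et_res {K : ℕ} {X : ℝ} {S : Finset ℕ} {ps : ℕ} {t : Fin K → ℕ} (hinj : Function.Injective t) :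
    ∀ i j, i ≠ j → ∀ p : ℕ, p.Prime → p ∉ Et X S ps t → ¬ (p : ℤ) ∣ (t i : ℤ) - t j := by
  intro i j hij p hp hpE hd
  apply hpE
  unfold Et
  apply Finset.mem_union_right
  rw [Finset.mem_biUnion]
  refine ⟨(i, j), Finset.mem_univ _, ?_⟩
  rw [Nat.mem_primeFactors]
  refine ⟨hp, Int.natCast_dvd.1 hd, ?_⟩
  rw [Int.natAbs_ne_zero, sub_ne_zero]
  intro h
  apply hij
  apply hinj
  exact_mod_cast h

theorem Es_res {K : ℕ} {X : ℝ} {S : Finset ℕ} {ps : ℕ} {t : Fin K → ℕ} {s : ℕ} (hs : ∀ j, s ≠ t j) :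
    ∀ j, ∀ p : ℕ, p.Prime → p ∉ Es X S ps t s → ¬ (p : ℤ) ∣ ((1 : ℕ) : ℤ) * t j - s := by
  intro j p hp hpE hd
  apply hpE
  unfold Es
  apply Finset.mem_union_right
  rw [Finset.mem_biUnion]
  refine ⟨j, Finset.mem_univ _, ?_⟩
  rw [Nat.cast_one, one_mul] at hd
  rw [Nat.mem_primeFactors]
  refine ⟨hp, Int.natCast_dvd.1 hd, ?_⟩
  rw [Int.natAbs_ne_zero, sub_ne_zero]
  intro h
  apply hs j
  exact_mod_cast h.symm

/-- sum over the window -/
theorem T_sumE (h5 : SieveAsymp) {K B : ℕ} (f : Fin B → ℝ → ℝ) (c : Fin B → ℝ) (A : Finset (Fin K → Fin B))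
    (hsm : ∀ l, ContDiff ℝ ∞ (f l)) (hcs : ∀ l, HasCompactSupport (f l)) (hf0 : ∀ l x, c l < x → f l x = 0)
    (hc : ∀ l, 0 ≤ c l ∧ c l ≤ 1 / 2) (hA : ∀ a ∈ A, ∑ j, c (a j) ≤ 1) (hf1 : ∀ l x, |f l x| ≤ 1)
    (hIInn : 0 ≤ II f A)
    (c0 : ℝ) (hc0 : 0 < c0)
    (hset : ∀ᶠ X : ℝ in atTop, ∀ (ps : ℕ) (E : Finset ℕ), E ⊆ Esup X ps → c0 / Real.log (Real.log X) ≤ BE E)
    (T : ℝ) (hT : 1 ≤ T) (δ ε1 : ℝ) (hδ : 0 < δ) (hε1 : 0 < ε1) :
    ∀ᶠ X : ℝ in atTop, ∀ (ps : ℕ) (S : Finset ℕ) (a0 : ℕ) (t : Fin K → ℕ), GoodS X S →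
      ∀ E : Finset ℕ, EE X S ps ⊆ E → E ⊆ Esup X ps →
      (∀ i j, i ≠ j → ∀ p : ℕ, p.Prime → p ∉ E → ¬ (p : ℤ) ∣ (t i : ℤ) - t j) →
      (∀ j, (t j : ℝ) ≤ T * Real.log X) →
      ∀ V : Finset ℕ, (∀ s ∈ V, (s : ℝ) ≤ T * Real.log X ∧ ∀ j, s ≠ t j) →
        (V.card : ℝ) ≤ δ * Real.log X / Real.log (Real.log X) →
      ∑ n ∈ Icc 1 ⌊3 * X⌋₊, nu X (WW X S ps) a0 n *
          (sqw E X f A (fun j => (n : ℤ) + t j) ^ 2 *
            ∑ s ∈ V, (VVm (Es X S ps t s) (RR X) (LL X) fst ((n : ℤ) + s)) ^ 2) ≤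
        (MPhi X * (1 / (WW X S ps : ℝ))) * (1 / (LL X * BE E) ^ K) *
          ((200 / c0) * (II f A * (2 * gam) + ε1) * (2 * δ)) +
        2 * (T * Real.log X + 1) * ((A.card : ℝ) ^ 2 * (5 * Real.exp (3 * LL X))) := by
  classical
  have hll : Tendsto (fun X : ℝ => Real.log (Real.log X)) atTop atTop :=
    Real.tendsto_log_atTop.comp Real.tendsto_log_atTop
  filter_upwards [T_boundE h5 f c A hsm hcs hf0 hc hA hf1 ε1 hε1, hset, Es_sub (K := K) T,
    eventually_ge_atTop 4, LL_tendsto.eventually_ge_atTop 1, hll.eventually_ge_atTop 1,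
    Real.tendsto_log_atTop.eventually_ge_atTop 1]
    with X hTB hBEl hEs hX4 hL1 hll1 hl1
  intro ps S a0 t hS E hEE hEsup ht htT V hV hVc
  set W := WW X S ps with hW
  have hWpos : 0 < W := WW_pos X S ps
  have hWr : (0 : ℝ) < W := by exact_mod_cast hWpos
  have hMnn : 0 ≤ MPhi X := Finset.sum_nonneg fun n _ => Phi_nonneg _
  have hBE : 0 < BE E := BE_pos fun p hp => Esup_prime (hEsup hp)
  have hgam := gam_pos
  set Mm : ℝ := (MPhi X * (1 / (W : ℝ))) * (1 / (LL X * BE E) ^ K) with hMm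
  have hMmnn : 0 ≤ Mm := by
    have : 0 < LL X * BE E := by positivity
    rw [hMm]; positivity
  have hVcard : (V.card : ℝ) ≤ T * Real.log X + 1 := by
    have h1 : V ⊆ range (⌊T * Real.log X⌋₊ + 1) := by
      intro s hs
      rw [Finset.mem_range, Nat.lt_succ_iff]
      exact Nat.le_floor (hV s hs).1
    have h2 := Finset.card_le_card h1
    rw [Finset.card_range] at h2
    have h3 : (⌊T * Real.log X⌋₊ : ℝ) ≤ T * Real.log X := Nat.floor_le (by positivity)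
    have h4 : (V.card : ℝ) ≤ ((⌊T * Real.log X⌋₊ + 1 : ℕ) : ℝ) := by exact_mod_cast h2
    push_cast at h4
    linarith
  have hone : ∀ s ∈ V, ∑ n ∈ Icc 1 ⌊3 * X⌋₊, nu X W a0 n *
      (sqw E X f A (fun j => (n : ℤ) + t j) ^ 2 * (VVm (Es X S ps t s) (RR X) (LL X) fst ((n : ℤ) + s)) ^ 2) ≤
      Mm * ((200 / c0) * (II f A * (2 * gam) + ε1) * (Real.log (Real.log X) / Real.log X)) +
        (A.card : ℝ) ^ 2 * (5 * Real.exp (3 * LL X)) := by
    intro s hs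
    have hsub := hEs ps S t s htT (hV s hs).1
    have h1 := hTB ps S a0 t hS E hEE hEsup ht (Es X S ps t s) 1 (s : ℤ) (EE_sub_Es X S ps t s) hsub
      (fun p hp _ h => hp.one_lt.ne' (Nat.dvd_one.1 h)) (Es_res (hV s hs).2)
    have h2 := hBEl ps _ hsub
    have hBEs : 0 < BE (Es X S ps t s) := BE_pos fun p hp => Esup_prime (hsub hp)
    have h3 : 1 / (LL X * BE (Es X S ps t s)) ≤ (200 / c0) * (Real.log (Real.log X) / Real.log X) := by
      have h4 : LL X * (c0 / Real.log (Real.log X)) ≤ LL X * BE (Es X S ps t s) :=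
        mul_le_mul_of_nonneg_left h2 (by linarith)
      have h5 : 0 < LL X * (c0 / Real.log (Real.log X)) := by positivity
      refine (one_div_le_one_div_of_le h5 h4).trans (le_of_eq ?_)
      have h6 : LL X = Real.log X / 200 := rfl
      rw [h6]
      have h7 : Real.log X ≠ 0 := by linarith
      have h8 : Real.log (Real.log X) ≠ 0 := by linarith
      field_simp
    have h6 : Mm * (1 / (LL X * BE (Es X S ps t s))) * (II f A * (2 * gam) + ε1) ≤
        Mm * ((200 / c0) * (II f A * (2 * gam) + ε1) * (Real.log (Real.log X) / Real.log X)) := by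
      have h7 : 0 ≤ II f A * (2 * gam) + ε1 := by positivity
      calc Mm * (1 / (LL X * BE (Es X S ps t s))) * (II f A * (2 * gam) + ε1) ≤
          Mm * ((200 / c0) * (Real.log (Real.log X) / Real.log X)) * (II f A * (2 * gam) + ε1) := by
            gcongr
        _ = _ := by ring
    simp only [Nat.cast_one, one_mul] at h1
    exact h1.trans (add_le_add_left h6 _)
  have hswap : ∑ n ∈ Icc 1 ⌊3 * X⌋₊, nu X W a0 n *
          (sqw E X f A (fun j => (n : ℤ) + t j) ^ 2 *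
            ∑ s ∈ V, (VVm (Es X S ps t s) (RR X) (LL X) fst ((n : ℤ) + s)) ^ 2) =
      ∑ s ∈ V, ∑ n ∈ Icc 1 ⌊3 * X⌋₊, nu X W a0 n *
      (sqw E X f A (fun j => (n : ℤ) + t j) ^ 2 * (VVm (Es X S ps t s) (RR X) (LL X) fst ((n : ℤ) + s)) ^ 2) := by
    rw [Finset.sum_comm]
    refine Finset.sum_congr rfl fun n _ => ?_
    rw [Finset.mul_sum, Finset.mul_sum]
  rw [hswap]
  refine (Finset.sum_le_sum hone).trans ?_
  rw [Finset.sum_const, nsmul_eq_mul, mul_add]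
  apply add_le_add
  · have h1 : 0 ≤ (200 / c0) * (II f A * (2 * gam) + ε1) := by positivity
    have h2 : (V.card : ℝ) * (Real.log (Real.log X) / Real.log X) ≤ 2 * δ := by
      calc (V.card : ℝ) * (Real.log (Real.log X) / Real.log X) ≤
          (δ * Real.log X / Real.log (Real.log X)) * (Real.log (Real.log X) / Real.log X) := by
            apply mul_le_mul_of_nonneg_right hVc
            positivity
        _ = δ := by
            have h7 : Real.log X ≠ 0 := by linarith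
            have h8 : Real.log (Real.log X) ≠ 0 := by linarith
            field_simp
        _ ≤ 2 * δ := by linarith
    calc (V.card : ℝ) * (Mm * ((200 / c0) * (II f A * (2 * gam) + ε1) * (Real.log (Real.log X) / Real.log X))) =
        Mm * ((200 / c0) * (II f A * (2 * gam) + ε1) * ((V.card : ℝ) * (Real.log (Real.log X) / Real.log X))) := by ring
      _ ≤ Mm * ((200 / c0) * (II f A * (2 * gam) + ε1) * (2 * δ)) := by gcongr
  · have h1 : 0 ≤ (A.card : ℝ) ^ 2 * (5 * Real.exp (3 * LL X)) := by positivity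
    have h2 : (0 : ℝ) ≤ V.card := Nat.cast_nonneg _
    nlinarith

end Pool.Agent.H398R2.PG
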