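import Mathlib
import Pool.Agent.H398R2.PG.D

open Finset Filter
open scoped ContDiff

/-! Module F1 of TEAM PG: size of the coprimality set, and the error terms. -/

namespace Pool.Agent.H398R2.PG

open Pool.Agent.H378R2

theorem one_sub_sum_le_prod (s : Finset ℕ) (a : ℕ → ℝ) (h0 : ∀ i ∈ s, 0 ≤ a i) (h1 : ∀ i ∈ s, a i ≤ 1) :
    1 - ∑ i ∈ s, a i ≤ ∏ i ∈ s, (1 - a i) := by
  classical
  induction s using Finset.induction_on with
  | empty => simp
  | insert b s hb ih =>
    rw [Finset.sum_insert hb, Finset.prod_insert hb]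
    have h2 := ih (fun i hi => h0 i (Finset.mem_insert_of_mem hi)) (fun i hi => h1 i (Finset.mem_insert_of_mem hi))
    have h3 : ∏ i ∈ s, (1 - a i) ≤ 1 := by
      apply Finset.prod_le_one
      · intro i hi; linarith [h1 i (Finset.mem_insert_of_mem hi)]
      · intro i hi; linarith [h0 i (Finset.mem_insert_of_mem hi)]
    have h4 := h0 b (Finset.mem_insert_self _ _)
    nlinarith

theorem card_primeFactors_le (n : ℕ) : (n.primeFactors.card : ℝ) ≤ 2 * Real.log (n + 1) := by
  rcases Nat.eq_zero_or_pos n with h | h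
  · subst h; simp
  · have h1 : 2 ^ n.primeFactors.card ≤ n := by
      calc 2 ^ n.primeFactors.card = ∏ _p ∈ n.primeFactors, 2 := by rw [Finset.prod_const]
        _ ≤ ∏ p ∈ n.primeFactors, p := Finset.prod_le_prod' fun p hp => (Nat.prime_of_mem_primeFactors hp).two_le
        _ ≤ n := Nat.le_of_dvd h (Nat.prod_primeFactors_dvd n)
    have h2 : (n.primeFactors.card : ℝ) * Real.log 2 ≤ Real.log n := by
      rw [← Real.log_pow]
      apply Real.log_le_log (by positivity)
      exact_mod_cast h1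
    have h3 : Real.log n ≤ Real.log (n + 1) := Real.log_le_log (by exact_mod_cast h) (by linarith)
    have h4 := Real.log_two_gt_d9
    have h5 : (0 : ℝ) ≤ n.primeFactors.card := Nat.cast_nonneg _
    nlinarith

/-- growth fact -/
theorem ev_small (K : ℕ) (T : ℝ) (hT : 1 ≤ T) : ∀ᶠ X : ℝ in atTop,
    (K : ℝ) ^ 2 * (2 * Real.log (T * Real.log X + 1)) ≤ (3 / 10) * (Real.log (Real.log X)) ^ 3 ∧
    0 < Real.log (Real.log X) := by
  have hll : Tendsto (fun X : ℝ => Real.log (Real.log X)) atTop atTop :=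
    Real.tendsto_log_atTop.comp Real.tendsto_log_atTop
  filter_upwards [hll.eventually_ge_atTop (1 + Real.log (2 * T)), hll.eventually_ge_atTop (20 * (K : ℝ) ^ 2 + 1),
    Real.tendsto_log_atTop.eventually_ge_atTop 1] with X h1 h2 h3
  have hl2T : 0 ≤ Real.log (2 * T) := Real.log_nonneg (by linarith)
  set u := Real.log (Real.log X) with hu
  have h4 : Real.log (T * Real.log X + 1) ≤ 2 * u := by
    calc Real.log (T * Real.log X + 1) ≤ Real.log (2 * T * Real.log X) := by
          apply Real.log_le_log (by positivity)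
          nlinarith
      _ = Real.log (2 * T) + u := by rw [Real.log_mul (by positivity) (by linarith)]
      _ ≤ 2 * u := by linarith
  have hu1 : 1 ≤ u := by linarith
  have hK2 : (0 : ℝ) ≤ (K : ℝ) ^ 2 := by positivity
  refine ⟨?_, by linarith⟩
  calc (K : ℝ) ^ 2 * (2 * Real.log (T * Real.log X + 1)) ≤ (K : ℝ) ^ 2 * (2 * (2 * u)) := by gcongr
    _ = (4 * (K : ℝ) ^ 2) * u := by ring
    _ ≤ (3 / 10 * u ^ 2) * u := by
        apply mul_le_mul_of_nonneg_right _ (by linarith)
        nlinarith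
    _ = _ := by ring

theorem BE_Et_ge (K : ℕ) (T : ℝ) (hT : 1 ≤ T) : ∀ᶠ X : ℝ in atTop, ∀ (Z ps : ℕ) (S : Finset ℕ) (t : Fin K → ℕ),
    4 ≤ Z → GoodP Z ps → GoodS X S → (∀ j, (t j : ℝ) ≤ T * Real.log X) →
    BE (PW X S ps) / 2 ≤ BE (Et X S ps t) := by
  classical
  filter_upwards [ev_small K T hT, EE_facts 0] with X h1 h2
  intro Z ps S t hZ hps hS ht
  have hPWsub : PW X S ps ⊆ Et X S ps t := by
    unfold Et EE
    exact Finset.subset_union_left.trans Finset.subset_union_left
  set D := (univ : Finset (Fin K × Fin K)).biUnion (fun ij => ((t ij.1 : ℤ) - t ij.2).natAbs.primeFactors) with hD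
  have hz2 : (Real.log (Real.log X)) ^ 3 ≤ z2 X := Nat.le_ceil _
  have hu3 : 0 < (Real.log (Real.log X)) ^ 3 := pow_pos h1.2 3
  have hz2pos : (0 : ℝ) < z2 X := lt_of_lt_of_le hu3 hz2
  -- the set of additional primes
  have hrest : Et X S ps t \ PW X S ps ⊆ ({ps} : Finset ℕ).filter Nat.Prime ∪ (D \ EE X S ps) := by
    intro p hp
    rw [Finset.mem_sdiff] at hp
    have h3 := hp.1
    unfold Et at h3
    rw [← hD, Finset.mem_union] at h3
    rw [Finset.mem_union]
    by_cases h4 : p ∈ EE X S ps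
    · left
      unfold EE at h4
      rw [Finset.mem_union] at h4
      rcases h4 with h4 | h4
      · exact absurd h4 hp.2
      · exact h4
    · right
      rcases h3 with h3 | h3
      · exact absurd h3 h4
      · exact Finset.mem_sdiff.2 ⟨h3, h4⟩
  have hDprime : ∀ p ∈ D, p.Prime := by
    intro p hp
    rw [hD, Finset.mem_biUnion] at hp
    obtain ⟨ij, _, hp⟩ := hp
    exact Nat.prime_of_mem_primeFactors hp
  have hDcard : (D.card : ℝ) ≤ (3 / 10) * (Real.log (Real.log X)) ^ 3 := by
    have h3 : (D.card : ℝ) ≤ ∑ ij : Fin K × Fin K, ((((t ij.1 : ℤ) - t ij.2).natAbs.primeFactors).card : ℝ) := by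
      rw [hD]
      exact_mod_cast Finset.card_biUnion_le
    have h4 : ∀ ij : Fin K × Fin K, ((((t ij.1 : ℤ) - t ij.2).natAbs.primeFactors).card : ℝ) ≤
        2 * Real.log (T * Real.log X + 1) := by
      intro ij
      refine (card_primeFactors_le _).trans ?_
      have h5 := natAbs_sub_le' (t ij.1) (t ij.2) _ (ht ij.1) (ht ij.2)
      have h6 : (0 : ℝ) ≤ (((t ij.1 : ℤ) - t ij.2).natAbs : ℕ) := Nat.cast_nonneg _
      have := Real.log_le_log (by linarith) (add_le_add_left h5 1)
      linarith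
    refine (h3.trans (Finset.sum_le_sum fun ij _ => h4 ij)).trans ?_
    rw [Finset.sum_const, Finset.card_univ, Fintype.card_prod, Fintype.card_fin, nsmul_eq_mul]
    refine le_trans (le_of_eq ?_) h1.1
    push_cast; ring
  have hsum : ∑ p ∈ Et X S ps t \ PW X S ps, (1 : ℝ) / p ≤ 1 / 2 := by
    refine (Finset.sum_le_sum_of_subset_of_nonneg hrest fun _ _ _ => by positivity).trans ?_
    have h3 := Finset.sum_union_inter (s₁ := ({ps} : Finset ℕ).filter Nat.Prime) (s₂ := D \ EE X S ps)
      (f := fun p : ℕ => (1 : ℝ) / p)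
    have h4 : 0 ≤ ∑ p ∈ ({ps} : Finset ℕ).filter Nat.Prime ∩ (D \ EE X S ps), (1 : ℝ) / (p : ℝ) :=
      Finset.sum_nonneg fun _ _ => by positivity
    have h5 : ∑ p ∈ ({ps} : Finset ℕ).filter Nat.Prime, (1 : ℝ) / (p : ℝ) ≤ 1 / 5 := by
      rw [Finset.filter_singleton]
      split_ifs with h
      · rw [Finset.sum_singleton]
        rcases hps with h6 | h6
        · rw [h6] at h; exact absurd h Nat.not_prime_one
        · have h7 : (5 : ℝ) ≤ ps := by exact_mod_cast (by omega : 5 ≤ ps)
          exact one_div_le_one_div_of_le (by norm_num) h7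
      · rw [Finset.sum_empty]; norm_num
    have h6 : ∑ p ∈ D \ EE X S ps, (1 : ℝ) / (p : ℝ) ≤ 3 / 10 := by
      have h7 : ∀ p ∈ D \ EE X S ps, (1 : ℝ) / (p : ℝ) ≤ 1 / (z2 X : ℝ) := by
        intro p hp
        rw [Finset.mem_sdiff] at hp
        apply one_div_le_one_div_of_le hz2pos
        have : z2 X < p := by
          by_contra hle
          push Not at hle
          exact hp.2 (EE_small hS h2.2.1 (hDprime p hp.1) hle)
        exact_mod_cast this.le
      refine (Finset.sum_le_sum h7).trans ?_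
      rw [Finset.sum_const, nsmul_eq_mul, mul_one_div, div_le_iff₀ hz2pos]
      have h8 : ((D \ EE X S ps).card : ℝ) ≤ D.card := by exact_mod_cast Finset.card_le_card Finset.sdiff_subset
      linarith
    linarith
  have hPWp : ∀ p ∈ PW X S ps, p.Prime := fun p hp => (mem_PW.1 hp).2.1
  have hpos := BE_pos hPWp
  have hprod : (1 : ℝ) / 2 ≤ ∏ p ∈ Et X S ps t \ PW X S ps, (1 - 1 / (p : ℝ)) := by
    refine le_trans ?_ (one_sub_sum_le_prod _ (fun p => 1 / (p : ℝ)) (fun p _ => by positivity) ?_)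
    · linarith
    · intro p hp
      have : p.Prime := by
        have h3 := hrest hp
        rw [Finset.mem_union] at h3
        rcases h3 with h3 | h3
        · exact (Finset.mem_filter.1 h3).2
        · exact hDprime p (Finset.mem_sdiff.1 h3).1
      have h3 : (1 : ℝ) ≤ p := by exact_mod_cast this.one_lt.le
      rw [div_le_one (by linarith)]
      exact h3
  unfold BE at hpos ⊢
  rw [← Finset.prod_sdiff hPWsub]
  nlinarith

end Pool.Agent.H398R2.PG
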