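import Mathlib
import Pool.Agent.H398R2.PG.E

open Finset Filter
open scoped ContDiff

/-! Module F1 of TEAM PG: the secondary error terms and the positivity at a single `X`. -/

namespace Pool.Agent.H398R2.PG

open Pool.Agent.H378R2

/-- the total secondary error -/
theorem errBE (K r : ℕ) (T cA ε η : ℝ) (hT : 1 ≤ T) (_hcA : 0 ≤ cA) (hε : 0 < ε) (hη : 0 < η) :
    ∀ᶠ X : ℝ in atTop, ∀ W : ℝ, 0 < W → W ≤ Real.exp (Real.log X / 700) →
      (K : ℝ) * cA ^ 2 * (Real.exp (2 * LL X) * ((4 * (T * Real.log X)) * Real.log (4 * X) +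
        4 * Real.sqrt X * Real.log (4 * X))) +
      (r : ℝ) * (cA ^ 2 * (5 * Real.exp (2 * LL X))) +
      (K : ℝ) / ε * (2 * (T * Real.log X + 1) * (cA ^ 2 * (5 * Real.exp (3 * LL X)))) +
      (K : ℝ) * (X ^ (9 / 10 : ℝ) * (cA ^ 2 * Real.exp (2 * LL X))) ≤
      (X / (W * (Real.log X) ^ K)) * η := by
  set C : ℝ := (K : ℝ) * cA ^ 2 * (8 * T + 8) + 5 * r * cA ^ 2 + (K : ℝ) / ε * (10 * (T + 1) * cA ^ 2) + K * cA ^ 2 with hC
  have hCnn : 0 ≤ C := by rw [hC]; positivity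
  have h1 := Real.tendsto_log_atTop.eventually (ev_pow_exp (2 + K) (1 / 20) (C / η) (by norm_num))
  filter_upwards [h1, eventually_ge_atTop 4, Real.tendsto_log_atTop.eventually_ge_atTop 2] with X h2 h4 h5
  intro W hW hWle
  set l := Real.log X with hl
  have hXexp : X = Real.exp l := (Real.exp_log (by linarith)).symm
  set s := X ^ (9 / 10 : ℝ) with hs
  have hsexp : s = Real.exp (9 / 10 * l) := by
    rw [hs, Real.rpow_def_of_pos (by linarith), ← hl]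
    congr 1; ring
  have hs1 : 1 ≤ s := by rw [hsexp]; exact Real.one_le_exp (by linarith)
  have hsq : Real.sqrt X ≤ s := by
    rw [Real.sqrt_eq_rpow, hs]
    exact Real.rpow_le_rpow_of_exponent_le (by linarith) (by norm_num)
  have hlog4 : Real.log (4 * X) ≤ 2 * l := by
    rw [Real.log_mul (by norm_num) (by linarith), ← hl]
    have h6 : Real.log 4 ≤ 2 := by
      have : Real.log 4 = 2 * Real.log 2 := by
        rw [show (4 : ℝ) = 2 ^ 2 by norm_num, Real.log_pow]; norm_num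
      have := Real.log_two_lt_d9
      linarith
    linarith
  have hlog4nn : 0 ≤ Real.log (4 * X) := Real.log_nonneg (by linarith)
  have hl2 : 1 ≤ l ^ 2 := one_le_pow₀ (by linarith)
  have hll2 : l ≤ l ^ 2 := by nlinarith
  have hL : LL X = l / 200 := rfl
  have he23 : Real.exp (2 * LL X) ≤ Real.exp (3 * LL X) := by
    apply Real.exp_le_exp.2
    rw [hL]
    linarith
  set e3 := Real.exp (3 * LL X) with he3
  have he3pos : 0 < e3 := Real.exp_pos _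
  have hs0 : 0 ≤ s := by linarith
  have t1 : (K : ℝ) * cA ^ 2 * (Real.exp (2 * LL X) * ((4 * (T * l)) * Real.log (4 * X) +
      4 * Real.sqrt X * Real.log (4 * X))) ≤ ((K : ℝ) * cA ^ 2 * (8 * T + 8)) * (l ^ 2 * s * e3) := by
    have h6 : (4 * (T * l)) * Real.log (4 * X) + 4 * Real.sqrt X * Real.log (4 * X) ≤ (8 * T + 8) * (l ^ 2 * s) := by
      have h7 : (4 * (T * l)) * Real.log (4 * X) ≤ (8 * T) * (l ^ 2 * s) := by
        calc (4 * (T * l)) * Real.log (4 * X) ≤ (4 * (T * l)) * (2 * l) := by gcongr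
          _ = (8 * T * l ^ 2) * 1 := by ring
          _ ≤ (8 * T * l ^ 2) * s := mul_le_mul_of_nonneg_left hs1 (by positivity)
          _ = _ := by ring
      have h8 : 4 * Real.sqrt X * Real.log (4 * X) ≤ 8 * (l ^ 2 * s) := by
        calc 4 * Real.sqrt X * Real.log (4 * X) ≤ 4 * s * (2 * l) := by gcongr
          _ = 8 * (l * s) := by ring
          _ ≤ 8 * (l ^ 2 * s) := by gcongr
      linarith
    have h7 : 0 ≤ (4 * (T * l)) * Real.log (4 * X) + 4 * Real.sqrt X * Real.log (4 * X) := by positivity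
    calc (K : ℝ) * cA ^ 2 * (Real.exp (2 * LL X) * ((4 * (T * l)) * Real.log (4 * X) + 4 * Real.sqrt X * Real.log (4 * X)))
        ≤ (K : ℝ) * cA ^ 2 * (e3 * ((8 * T + 8) * (l ^ 2 * s))) := by gcongr
      _ = _ := by ring
  have t2 : (r : ℝ) * (cA ^ 2 * (5 * Real.exp (2 * LL X))) ≤ (5 * r * cA ^ 2) * (l ^ 2 * s * e3) := by
    calc (r : ℝ) * (cA ^ 2 * (5 * Real.exp (2 * LL X))) ≤ (r : ℝ) * (cA ^ 2 * (5 * e3)) := by gcongr
      _ = (5 * r * cA ^ 2) * (1 * 1 * e3) := by ring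
      _ ≤ _ := by gcongr
  have t3 : (K : ℝ) / ε * (2 * (T * l + 1) * (cA ^ 2 * (5 * e3))) ≤
      ((K : ℝ) / ε * (10 * (T + 1) * cA ^ 2)) * (l ^ 2 * s * e3) := by
    have h6 : T * l + 1 ≤ (T + 1) * l ^ 2 := by nlinarith
    calc (K : ℝ) / ε * (2 * (T * l + 1) * (cA ^ 2 * (5 * e3))) ≤
        (K : ℝ) / ε * (2 * ((T + 1) * l ^ 2) * (cA ^ 2 * (5 * e3))) := by gcongr
      _ = ((K : ℝ) / ε * (10 * (T + 1) * cA ^ 2)) * (l ^ 2 * 1 * e3) := by ring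
      _ ≤ _ := by gcongr
  have t4 : (K : ℝ) * (s * (cA ^ 2 * Real.exp (2 * LL X))) ≤ (K * cA ^ 2) * (l ^ 2 * s * e3) := by
    calc (K : ℝ) * (s * (cA ^ 2 * Real.exp (2 * LL X))) ≤ (K : ℝ) * (s * (cA ^ 2 * e3)) := by gcongr
      _ = (K * cA ^ 2) * (1 * s * e3) := by ring
      _ ≤ _ := by gcongr
  have ttot : (K : ℝ) * cA ^ 2 * (Real.exp (2 * LL X) * ((4 * (T * l)) * Real.log (4 * X) +
      4 * Real.sqrt X * Real.log (4 * X))) +
      (r : ℝ) * (cA ^ 2 * (5 * Real.exp (2 * LL X))) +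
      (K : ℝ) / ε * (2 * (T * l + 1) * (cA ^ 2 * (5 * e3))) +
      (K : ℝ) * (s * (cA ^ 2 * Real.exp (2 * LL X))) ≤ C * (l ^ 2 * s * e3) := by
    calc _ ≤ ((K : ℝ) * cA ^ 2 * (8 * T + 8)) * (l ^ 2 * s * e3) + (5 * r * cA ^ 2) * (l ^ 2 * s * e3) +
        ((K : ℝ) / ε * (10 * (T + 1) * cA ^ 2)) * (l ^ 2 * s * e3) + (K * cA ^ 2) * (l ^ 2 * s * e3) := by
          linarith
      _ = _ := by rw [hC]; ring
  refine ttot.trans ?_
  have hlpos : 0 < l := by linarith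
  rw [div_mul_eq_mul_div, le_div_iff₀ (by positivity)]
  have h6 : C * l ^ (2 + K) ≤ η * Real.exp (1 / 20 * l) := by
    have : C / η * l ^ (2 + K) * η ≤ Real.exp (1 / 20 * l) * η := mul_le_mul_of_nonneg_right h2 hη.le
    have h7 : C / η * l ^ (2 + K) * η = C * l ^ (2 + K) := by field_simp
    rw [h7] at this
    linarith
  calc C * (l ^ 2 * s * e3) * (W * l ^ K) = (C * l ^ (2 + K)) * (s * e3 * W) := by ring
    _ ≤ (η * Real.exp (1 / 20 * l)) * (s * e3 * Real.exp (l / 700)) := by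
        gcongr
    _ = η * Real.exp (1 / 20 * l + 9 / 10 * l + 3 * LL X + l / 700) := by
        rw [Real.exp_add, Real.exp_add, Real.exp_add, hsexp]
        ring
    _ ≤ η * Real.exp l := by
        apply mul_le_mul_of_nonneg_left _ hη.le
        apply Real.exp_le_exp.2
        rw [hL]
        linarith
    _ = X * η := by rw [← hXexp]; ring

/-- the positivity statement at a single `X` -/
theorem pos_atE (K0 B r : ℕ) (T : ℝ) (hT : 1 ≤ T) (f : Fin B → ℝ → ℝ) (c : Fin B → ℝ)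
    (A : Finset (Fin (K0 + 1) → Fin B)) (hf0 : ∀ l x, c l < x → f l x = 0)
    (hA : ∀ a ∈ A, ∑ j, c (a j) ≤ 1) (hf1 : ∀ l x, |f l x| ≤ 1) (hIpos : 0 < II f A)
    (c0 ε ε1 δ X : ℝ) (hc0 : 0 < c0) (hε : 0 < ε) (hε1 : 0 < ε1)
    (hε1le : (((K0 + 1 : ℕ) : ℝ) + r) * ε1 ≤ II f A) (hε1le2 : ε1 ≤ II f A)
    (hδ : δ = ε * c0 / (400 * ((K0 + 1 : ℕ) : ℝ) * (2 * gam + 1)))
    (hratio : 1600000 * ((r : ℝ) + 3) * II f A ≤ ∑ i, JJ f A i)
    (ps a0 : ℕ) (S : Finset ℕ) (t : Fin (K0 + 1) → ℕ) (Bc : ℕ → ℕ)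
    (hX40 : 40 ≤ X) (hL1 : 1 ≤ LL X)
    (hMM : MPhi X / 400 ≤ LPhi X)
    (E : Finset ℕ) (hEsup : E ⊆ Esup X ps) (hPWsup : PW X S ps ⊆ Esup X ps)
    (hBEPW : BE (PW X S ps) / 2 ≤ BE E)
    (V : Finset ℕ)
    (hBEl : ∀ (ps : ℕ) (E : Finset ℕ), E ⊆ Esup X ps → c0 / Real.log (Real.log X) ≤ BE E)
    (S1 : ∑ n ∈ Icc 1 ⌊3 * X⌋₊, nu X (WW X S ps) a0 n *
          sqw E X f A (fun j => (n : ℤ) + t j) ^ 2 ≤
        (MPhi X * (1 / (WW X S ps : ℝ))) * (1 / (LL X * BE E) ^ (K0 + 1)) * (II f A + ε1) +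
          (A.card : ℝ) ^ 2 * (5 * Real.exp (2 * LL X)))
    (S2 : ∀ i, (LPhi X * (1 / ((WW X S ps).totient : ℝ))) * (1 / (LL X * BE E) ^ K0) *
          (JJ f A i - ε1) -
        (A.card : ℝ) ^ 2 * (BVerr K0 X S ps Bc + Real.exp (2 * LL X) *
          ((4 * (T * Real.log X)) * Real.log (4 * X) + 4 * Real.sqrt X * Real.log (4 * X))) ≤
      ∑ n ∈ Icc 1 ⌊3 * X⌋₊, nu X (WW X S ps) a0 n * (sqw E X f A (fun j => (n : ℤ) + t j) ^ 2 * th (n + t i)))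
    (TS : ∑ n ∈ Icc 1 ⌊3 * X⌋₊, nu X (WW X S ps) a0 n *
          (sqw E X f A (fun j => (n : ℤ) + t j) ^ 2 *
            ∑ s ∈ V, (VVm (Es X S ps t s) (RR X) (LL X) fst ((n : ℤ) + s)) ^ 2) ≤
        (MPhi X * (1 / (WW X S ps : ℝ))) * (1 / (LL X * BE E) ^ (K0 + 1)) *
          ((200 / c0) * (II f A * (2 * gam) + ε1) * (2 * δ)) +
        2 * (T * Real.log X + 1) * ((A.card : ℝ) ^ 2 * (5 * Real.exp (3 * LL X))))
    (hBV : BVerr K0 X S ps Bc ≤ X / ((WW X S ps * BE (PW X S ps)) * (Real.log X) ^ (2 * K0 + 2)))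
    (herrB : ∀ W : ℝ, 0 < W → W ≤ Real.exp (Real.log X / 700) →
      ((K0 + 1 : ℕ) : ℝ) * (A.card : ℝ) ^ 2 * (Real.exp (2 * LL X) * ((4 * (T * Real.log X)) * Real.log (4 * X) +
        4 * Real.sqrt X * Real.log (4 * X))) +
      (r : ℝ) * ((A.card : ℝ) ^ 2 * (5 * Real.exp (2 * LL X))) +
      ((K0 + 1 : ℕ) : ℝ) / ε * (2 * (T * Real.log X + 1) * ((A.card : ℝ) ^ 2 * (5 * Real.exp (3 * LL X)))) +
      ((K0 + 1 : ℕ) : ℝ) * (X ^ (9 / 10 : ℝ) * ((A.card : ℝ) ^ 2 * Real.exp (2 * LL X))) ≤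
      (X / (W * (Real.log X) ^ (K0 + 1))) * (II f A / 80))
    (herrBV : ∀ W BEP V : ℝ, 0 < W → c0 / Real.log (Real.log X) ≤ BEP →
      V ≤ X / ((W * BEP) * (Real.log X) ^ (2 * K0 + 2)) →
      (((K0 + 1 : ℕ) : ℝ) * (A.card : ℝ) ^ 2) * V ≤ (X / (W * (Real.log X) ^ (K0 + 1))) * (II f A / 80))
    (bad : Finset ℕ) (hbad : (bad.card : ℝ) ≤ X ^ (9 / 10 : ℝ)) :
    0 < ∑ n ∈ Icc 1 ⌊3 * X⌋₊, (nu X (WW X S ps) a0 n * sqw E X f A (fun j => (n : ℤ) + t j) ^ 2) *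
      ((∑ i, th (n + t i)) / Real.log (4 * X) - r -
      ((K0 + 1 : ℕ) : ℝ) / ε * (∑ s ∈ V, (VVm (Es X S ps t s) (RR X) (LL X) fst ((n : ℤ) + s)) ^ 2) -
      ((K0 + 1 : ℕ) : ℝ) * (if n ∈ bad then 1 else 0)) := by
  classical
  have hXpos : 0 < X := by linarith
  have hLl : LL X = Real.log X / 200 := rfl
  have hlogX : 200 ≤ Real.log X := by linarith
  have hWpos : 0 < WW X S ps := WW_pos X S ps
  have hWr : (0 : ℝ) < (WW X S ps : ℝ) := by exact_mod_cast hWpos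
  have hBE : 0 < BE E := BE_pos fun p hp => Esup_prime (hEsup hp)
  have hBE1 : BE E ≤ 1 := BE_le_one fun p hp => Esup_prime (hEsup hp)
  have hPWpos : 0 < BE (PW X S ps) := BE_pos fun p hp => (mem_PW.1 hp).2.1
  have hMge := MPhi_ge X hX40
  have hMpos : 0 < MPhi X := lt_of_lt_of_le (by positivity) hMge
  set Wn : ℕ → ℝ := fun n => nu X (WW X S ps) a0 n * sqw E X f A (fun j => (n : ℤ) + t j) ^ 2 with hWn
  set Tn : ℕ → ℝ := fun n => ∑ s ∈ V, (VVm (Es X S ps t s) (RR X) (LL X) fst ((n : ℤ) + s)) ^ 2 with hTn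
  set bd : ℕ → ℝ := fun n => if n ∈ bad then 1 else 0 with hbd
  have hl4 : 1 ≤ Real.log (4 * X) := by
    rw [Real.log_mul (by norm_num) hXpos.ne']
    have := Real.log_nonneg (by norm_num : (1 : ℝ) ≤ 4)
    linarith
  have hl4le : Real.log (4 * X) ≤ 400 * LL X := by
    rw [Real.log_mul (by norm_num) hXpos.ne']
    have h2 : Real.log 4 ≤ 2 := by
      have : Real.log 4 = 2 * Real.log 2 := by
        rw [show (4 : ℝ) = 2 ^ 2 by norm_num, Real.log_pow]; norm_num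
      have := Real.log_two_lt_d9
      linarith
    rw [hLl]
    linarith
  have E1 : ∑ n ∈ Icc 1 ⌊3 * X⌋₊, Wn n ≤ (MPhi X * (1 / (WW X S ps : ℝ))) *
      (1 / (LL X * BE E) ^ (K0 + 1)) * (II f A + ε1) + (A.card : ℝ) ^ 2 * (5 * Real.exp (2 * LL X)) := S1
  have E2 : (LPhi X * (1 / ((WW X S ps).totient : ℝ))) * (1 / (LL X * BE E) ^ K0) *
      (∑ i, JJ f A i - ((K0 + 1 : ℕ) : ℝ) * ε1) - ((K0 + 1 : ℕ) : ℝ) * ((A.card : ℝ) ^ 2 * (BVerr K0 X S ps Bc +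
        Real.exp (2 * LL X) * ((4 * (T * Real.log X)) * Real.log (4 * X) + 4 * Real.sqrt X * Real.log (4 * X)))) ≤
      ∑ n ∈ Icc 1 ⌊3 * X⌋₊, Wn n * ∑ i, th (n + t i) := by
    have h1 : ∑ n ∈ Icc 1 ⌊3 * X⌋₊, Wn n * ∑ i, th (n + t i) =
        ∑ i, ∑ n ∈ Icc 1 ⌊3 * X⌋₊, nu X (WW X S ps) a0 n *
          (sqw E X f A (fun j => (n : ℤ) + t j) ^ 2 * th (n + t i)) := by
      rw [Finset.sum_comm]
      refine Finset.sum_congr rfl fun n _ => ?_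
      rw [Finset.mul_sum]
      refine Finset.sum_congr rfl fun i _ => ?_
      simp only [hWn]
      ring
    rw [h1]
    refine le_trans (le_of_eq ?_) (Finset.sum_le_sum fun i _ => S2 i)
    rw [Finset.sum_sub_distrib, ← Finset.mul_sum, Finset.sum_sub_distrib, Finset.sum_const, Finset.sum_const,
      Finset.card_univ, Fintype.card_fin, nsmul_eq_mul, nsmul_eq_mul]
  have E3 : ∑ n ∈ Icc 1 ⌊3 * X⌋₊, Wn n * Tn n ≤ (MPhi X * (1 / (WW X S ps : ℝ))) *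
      (1 / (LL X * BE E) ^ (K0 + 1)) * ((200 / c0) * (II f A * (2 * gam) + ε1) * (2 * δ)) +
      2 * (T * Real.log X + 1) * ((A.card : ℝ) ^ 2 * (5 * Real.exp (3 * LL X))) := by
    refine le_trans (le_of_eq ?_) TS
    refine Finset.sum_congr rfl fun n _ => ?_
    simp only [hWn, hTn]
    ring
  have E4 : ∑ n ∈ Icc 1 ⌊3 * X⌋₊, Wn n * bd n ≤ X ^ (9 / 10 : ℝ) * ((A.card : ℝ) ^ 2 * Real.exp (2 * LL X)) := by
    have h1 : ∀ n, Wn n ≤ (A.card : ℝ) ^ 2 * Real.exp (2 * LL X) := by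
      intro n
      have h2 := sqw_sq_le E X (by linarith) f c A hf0 hA hf1 (fun j => (n : ℤ) + t j)
      have h3 : nu X (WW X S ps) a0 n ≤ 1 := by
        unfold nu
        split_ifs
        · exact Phi_le_one _
        · exact zero_le_one
      calc Wn n ≤ 1 * sqw E X f A (fun j => (n : ℤ) + t j) ^ 2 := mul_le_mul_of_nonneg_right h3 (sq_nonneg _)
        _ ≤ _ := by rw [one_mul]; exact h2
    have h2 : ∑ n ∈ Icc 1 ⌊3 * X⌋₊, Wn n * bd n = ∑ n ∈ (Icc 1 ⌊3 * X⌋₊).filter (fun n => n ∈ bad), Wn n := by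
      rw [Finset.sum_filter]
      refine Finset.sum_congr rfl fun n _ => ?_
      simp only [hbd]
      split_ifs
      · rw [mul_one]
      · rw [mul_zero]
    rw [h2]
    refine (Finset.sum_le_sum fun n _ => h1 n).trans ?_
    rw [Finset.sum_const, nsmul_eq_mul]
    apply mul_le_mul_of_nonneg_right _ (by positivity)
    refine le_trans ?_ hbad
    have h3 : ((Icc 1 ⌊3 * X⌋₊).filter (fun n => n ∈ bad)).card ≤ bad.card := by
      apply Finset.card_le_card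
      intro n hn
      exact (Finset.mem_filter.1 hn).2
    exact_mod_cast h3
  have e0 : ∑ n ∈ Icc 1 ⌊3 * X⌋₊, Wn n * ((∑ i, th (n + t i)) / Real.log (4 * X) - r -
      ((K0 + 1 : ℕ) : ℝ) / ε * Tn n - ((K0 + 1 : ℕ) : ℝ) * bd n) =
      (∑ n ∈ Icc 1 ⌊3 * X⌋₊, Wn n * ∑ i, th (n + t i)) / Real.log (4 * X) -
      r * ∑ n ∈ Icc 1 ⌊3 * X⌋₊, Wn n - ((K0 + 1 : ℕ) : ℝ) / ε * ∑ n ∈ Icc 1 ⌊3 * X⌋₊, Wn n * Tn n -
      ((K0 + 1 : ℕ) : ℝ) * ∑ n ∈ Icc 1 ⌊3 * X⌋₊, Wn n * bd n := by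
    rw [Finset.sum_div, Finset.mul_sum, Finset.mul_sum, Finset.mul_sum, ← Finset.sum_sub_distrib,
      ← Finset.sum_sub_distrib, ← Finset.sum_sub_distrib]
    refine Finset.sum_congr rfl fun n _ => ?_
    ring
  have hgoal : 0 < (∑ n ∈ Icc 1 ⌊3 * X⌋₊, Wn n * ∑ i, th (n + t i)) / Real.log (4 * X) -
      r * ∑ n ∈ Icc 1 ⌊3 * X⌋₊, Wn n - ((K0 + 1 : ℕ) : ℝ) / ε * ∑ n ∈ Icc 1 ⌊3 * X⌋₊, Wn n * Tn n -
      ((K0 + 1 : ℕ) : ℝ) * ∑ n ∈ Icc 1 ⌊3 * X⌋₊, Wn n * bd n := by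
    have hM2 : (MPhi X * (1 / (WW X S ps : ℝ))) * (1 / (LL X * BE E) ^ (K0 + 1)) * (LL X / 800) ≤
        (LPhi X * (1 / ((WW X S ps).totient : ℝ))) * (1 / (LL X * BE E) ^ K0) := by
      rw [totient_WW]
      exact M2_real (MPhi X) (LPhi X) (WW X S ps) (BE E) (BE (PW X S ps)) (LL X) K0 hMpos.le hWr hBE
        hPWpos (by linarith) hBEPW hMM
    have hMm := Mm_real X (MPhi X) (WW X S ps) (BE E) (LL X) (Real.log X) (K0 + 1) hXpos hWr hBE hBE1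
      (by linarith) (by rw [hLl]; linarith) hMge
    have hMmpos : 0 < (MPhi X * (1 / (WW X S ps : ℝ))) * (1 / (LL X * BE E) ^ (K0 + 1)) := by
      have : 0 < LL X := by linarith
      positivity
    have hBVnn : 0 ≤ BVerr K0 X S ps Bc := by
      unfold BVerr
      exact Finset.sum_nonneg fun q _ => by positivity
    have hE2nn : 0 ≤ Real.exp (2 * LL X) * ((4 * (T * Real.log X)) * Real.log (4 * X) + 4 * Real.sqrt X * Real.log (4 * X)) := by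
      have : 0 ≤ Real.log (4 * X) := by linarith
      positivity
    exact combine_real _ _ (II f A) ε1 ((K0 + 1 : ℕ) : ℝ) r (Real.log (4 * X)) (LL X) (∑ i, JJ f A i) c0 δ gam ε
      _ _ _ _ (A.card : ℝ) (BVerr K0 X S ps Bc) (Real.exp (2 * LL X)) (Real.exp (3 * LL X)) _
      (T * Real.log X + 1) (X / ((WW X S ps : ℝ) * (Real.log X) ^ (K0 + 1))) (X ^ (9 / 10 : ℝ)) 0 0
      hMmpos hIpos hε1 (by positivity) (Nat.cast_nonneg _) hl4 hl4le (by linarith) hc0 gam_pos hε hε1le hε1le2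
      hδ hratio hM2 hBVnn hE2nn E1 E2 E3 E4 (herrB _ hWr (WW_le X (by linarith) S ps))
      (herrBV _ _ _ hWr (hBEl ps _ hPWsup) hBV) hMm
  calc _ < _ := hgoal
    _ = _ := e0.symm

end Pool.Agent.H398R2.PG
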