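import Mathlib
import Pool.Agent.H398R2.PG.F
import Pool.Agent.H398R2.PG.C

open Finset Filter
open scoped ContDiff

/-! Module F1 of TEAM PG: Maynard-Tao inside an Erdos-Rankin window, with a spread out tuple. -/

namespace Pool.Agent.H398R2.PG

open Pool.Agent.H378R2
open Pool.Agent.H312R2.PG (TupOK Cov MTER)

/-- conclusion from a good `n` -/
theorem finishE (K0 r : ℕ) (T X : ℝ) (ps a0 : ℕ) (S : Finset ℕ) (t : Fin (K0 + 1) → ℕ)
    (htT : ∀ j, (t j : ℝ) ≤ T * Real.log X)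
    (hX40 : 40 ≤ X) (hTX : 2 * (T * Real.log X) ≤ X) (hR : 1 ≤ RR X) (hRX : (RR X : ℝ) < X) (hyX : (yy X : ℝ) < X)
    (V : Finset ℕ) (hV : ∀ s : ℕ, (s : ℝ) ≤ T * Real.log X → (∀ j, s ≠ t j) → (a0 + s).Coprime (WW X S ps) → s ∈ V)
    (bad : Finset ℕ) (n : ℕ) (hXn : X < n) (hn3 : (n : ℝ) ≤ 3 * X) (hcl : n ≡ a0 [MOD WW X S ps])
    (hBr : 0 < (∑ i, th (n + t i)) / Real.log (4 * X) - r -
      ((K0 + 1 : ℕ) : ℝ) / (1 / 2) * (∑ s ∈ V, (VVm (Es X S ps t s) (RR X) (LL X) fst ((n : ℤ) + s)) ^ 2) -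
      ((K0 + 1 : ℕ) : ℝ) * (if n ∈ bad then 1 else 0)) :
    n ∉ bad ∧ r ≤ ((univ : Finset (Fin (K0 + 1))).filter (fun j => (n + t j).Prime)).card ∧
    ∀ s : ℕ, (s : ℝ) ≤ T * Real.log X → (n + s).Prime → ∃ j, s = t j := by
  classical
  have hXpos : 0 < X := by linarith
  set Tn : ℝ := ∑ s ∈ V, (VVm (Es X S ps t s) (RR X) (LL X) fst ((n : ℤ) + s)) ^ 2 with hTn
  set l4 := Real.log (4 * X) with hl4
  have hl4pos : 0 < l4 := Real.log_pos (by linarith)
  have hTnn : 0 ≤ Tn := Finset.sum_nonneg fun v _ => sq_nonneg _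
  have hth : ∀ i, th (n + t i) / l4 ≤ if (n + t i).Prime then 1 else 0 := by
    intro i
    unfold th
    split_ifs with hp
    · rw [div_le_one hl4pos, hl4]
      apply Real.log_le_log (by exact_mod_cast hp.pos)
      push_cast
      have h1 := htT i
      linarith
    · rw [zero_div]
  have hthsum : (∑ i, th (n + t i)) / l4 ≤ ((univ.filter (fun i => (n + t i).Prime)).card : ℝ) := by
    rw [Finset.sum_div]
    refine (Finset.sum_le_sum fun i _ => hth i).trans ?_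
    rw [Finset.sum_boole]
  have hcardK : ((univ.filter (fun i => (n + t i).Prime)).card : ℝ) ≤ ((K0 + 1 : ℕ) : ℝ) := by
    have h1 : (univ.filter (fun i => (n + t i).Prime)).card ≤ K0 + 1 := by
      refine (Finset.card_filter_le _ _).trans ?_
      rw [Finset.card_univ, Fintype.card_fin]
    exact_mod_cast h1
  set K : ℝ := ((K0 + 1 : ℕ) : ℝ) with hKdef
  have hKpos : 0 < K := by rw [hKdef]; positivity
  have hrnn : (0 : ℝ) ≤ r := Nat.cast_nonneg r
  have hKT : 0 ≤ K / (1 / 2) * Tn := by positivity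
  have hbdnn : (0 : ℝ) ≤ K * (if n ∈ bad then 1 else 0) := by
    split_ifs
    · rw [mul_one]; exact hKpos.le
    · rw [mul_zero]
  refine ⟨?_, ?_, ?_⟩
  · intro hb
    rw [if_pos hb] at hBr
    linarith
  · have h1 : (r : ℝ) < ((univ.filter (fun i => (n + t i).Prime)).card : ℝ) := by linarith
    have h2 : r < (univ.filter (fun i => (n + t i).Prime)).card := by exact_mod_cast h1
    exact h2.le
  · intro s hs hp
    by_contra hcon
    push Not at hcon
    by_cases hcop : (a0 + s).Coprime (WW X S ps)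
    · have hsV := hV s hs hcon hcop
      have h1 : VVm (Es X S ps t s) (RR X) (LL X) fst ((n : ℤ) + s) = 1 := by
        have h2 := VV_prime (Es X S ps t s) (RR X) hR (LL X) fst (n + s) hp (by
          have h3 : (RR X : ℝ) < n := hRX.trans hXn
          have h4 : RR X < n := by exact_mod_cast h3
          omega)
        push_cast at h2
        rw [h2]
        exact fst_zero
      have h2 : (1 : ℝ) ≤ Tn := by
        have h3 := Finset.single_le_sum (f := fun s => (VVm (Es X S ps t s) (RR X) (LL X) fst ((n : ℤ) + s)) ^ 2)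
          (fun s _ => sq_nonneg _) hsV
        simp only [h1, one_pow] at h3
        exact h3
      have h3 : K / (1 / 2) * 1 ≤ K / (1 / 2) * Tn := mul_le_mul_of_nonneg_left h2 (by positivity)
      linarith
    · obtain ⟨p, hpp, h1, h2⟩ := Nat.Prime.not_coprime_iff_dvd.1 hcop
      have hpPW := (prime_dvd_WW hpp).1 h2
      have h3 : n + s ≡ a0 + s [MOD p] := (hcl.of_dvd h2).add_right s
      have h4 : p ∣ n + s := (Nat.modEq_zero_iff_dvd.1 (h3.trans (Nat.modEq_zero_iff_dvd.2 h1)))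
      have h5 : p = n + s := (Nat.prime_dvd_prime_iff_eq hpp hp).1 h4
      have h6 : p ≤ yy X := (mem_PW.1 hpPW).1
      have h7 : (p : ℝ) ≤ yy X := by exact_mod_cast h6
      have h8 : (n : ℝ) ≤ p := by
        rw [h5]; push_cast
        have : (0 : ℝ) ≤ s := Nat.cast_nonneg s
        linarith
      linarith

theorem ev_RR : ∀ᶠ X : ℝ in atTop, 1 ≤ RR X ∧ (RR X : ℝ) < X := by
  filter_upwards [LL_tendsto.eventually_ge_atTop 1, eventually_gt_atTop 1] with X h1 h2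
  have hlog : 0 < Real.log X := Real.log_pos h2
  constructor
  · unfold RR
    apply Nat.le_floor
    rw [Nat.cast_one]
    exact Real.one_le_exp (by linarith)
  · unfold RR
    calc (⌊Real.exp (LL X)⌋₊ : ℝ) ≤ Real.exp (LL X) := Nat.floor_le (Real.exp_pos _).le
      _ < Real.exp (Real.log X) := by
          apply Real.exp_lt_exp.2
          unfold LL
          linarith
      _ = X := Real.exp_log (by linarith)

/-- (F1) Maynard-Tao inside an Erdos-Rankin window with spread out tuple -/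
theorem mter_of (h5 : SieveAsymp) (hbv : BVrel) (hcov : Cov) : MTER := by
  classical
  intro r
  obtain ⟨c0, hc0, X1, hset⟩ := setfacts
  have hset' : ∀ᶠ X : ℝ in atTop, ∀ (ps : ℕ) (E : Finset ℕ), E ⊆ Esup X ps → c0 / Real.log (Real.log X) ≤ BE E := by
    filter_upwards [eventually_ge_atTop X1] with X hX
    exact fun ps E hE => (hset X hX ps E hE).2.2
  obtain ⟨K0, B, f, c, A, hsm, hcs, hf0, hc, hA, hf1, hIpos, hratio, hrK⟩ := familyR (1600000 * (r + 3)) r
  have hKpos : (0 : ℝ) < ((K0 + 1 : ℕ) : ℝ) := by positivity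
  obtain ⟨ε1, hε1⟩ : ∃ ε1 : ℝ, ε1 = II f A / (((K0 + 1 : ℕ) : ℝ) + r + 1) := ⟨_, rfl⟩
  have hrnn : (0 : ℝ) ≤ r := Nat.cast_nonneg r
  have hden : (0 : ℝ) < ((K0 + 1 : ℕ) : ℝ) + r + 1 := by positivity
  have hε1pos : 0 < ε1 := by rw [hε1]; positivity
  have hε1eq : (((K0 + 1 : ℕ) : ℝ) + r + 1) * ε1 = II f A := by
    rw [hε1]; field_simp
  have hε1le : (((K0 + 1 : ℕ) : ℝ) + r) * ε1 ≤ II f A := by linarith
  have hε1le2 : ε1 ≤ II f A := by
    have : 0 ≤ (((K0 + 1 : ℕ) : ℝ) + r) * ε1 := by positivity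
    linarith
  obtain ⟨δ, hδ⟩ : ∃ δ : ℝ, δ = (1 / 2) * c0 / (400 * ((K0 + 1 : ℕ) : ℝ) * (2 * gam + 1)) := ⟨_, rfl⟩
  have hgam := gam_pos
  have hδpos : 0 < δ := by rw [hδ]; positivity
  obtain ⟨z1, hKz, hcov1⟩ := hcov (K0 + 1)
  refine ⟨K0 + 1, z1, hrK, hKz, ?_⟩
  intro T hT
  obtain ⟨Z, X2, hcov2⟩ := hcov1 T δ hT hδpos
  obtain ⟨X3, hbvX⟩ := hbv (2 * K0 + 2) (max Z 4)
  have hη : 0 < II f A / 80 := by positivity
  have hcc : 0 ≤ ((K0 + 1 : ℕ) : ℝ) * (A.card : ℝ) ^ 2 := by positivity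
  rw [← Filter.eventually_atTop]
  filter_upwards [S1_boundE h5 f c A hsm hcs hf0 hc hA hf1 ε1 hε1pos,
    S2_boundE h5 f c A hsm hcs hf0 hc hA hf1 T ε1 hε1pos,
    T_sumE h5 f c A hsm hcs hf0 hc hA hf1 hIpos.le c0 hc0 hset' T hT δ ε1 hδpos hε1pos,
    EE_facts 0, hset', LPhi_ge, errBE (K0 + 1) r T A.card (1 / 2) (II f A / 80) hT (Nat.cast_nonneg _) (by norm_num) hη,
    errBV K0 (((K0 + 1 : ℕ) : ℝ) * (A.card : ℝ) ^ 2) c0 (II f A / 80) hcc hc0 hη,
    LL_tendsto.eventually_ge_atTop 1, eventually_ge_atTop 40, eventually_ge_atTop X2, eventually_ge_atTop X3,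
    Et_sub (K := K0 + 1) T, BE_Et_ge (K0 + 1) T hT, ev_T_half T, ev_RR]
    with X hS1 hS2 hTs hEf hBEl hLP herrB herrBV hL1 hX40 hX2 hX3 hEtsub hBEt hTX hRR
  intro t htup bad hbad
  obtain ⟨htinj, htup2⟩ := htup
  obtain ⟨ps, S, hps, hS, hbvS⟩ := hbvX X hX3
  have hpsZ : GoodP Z ps := by
    rcases hps with h | h
    · exact Or.inl h
    · exact Or.inr ⟨h.1, lt_of_le_of_lt (le_max_left _ _) h.2⟩
  obtain ⟨a0, hcop, hcard⟩ := hcov2 X hX2 ps S hpsZ hS t ⟨htinj, htup2⟩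
  have htT : ∀ j, (t j : ℝ) ≤ T * Real.log X := fun j => (htup2 j).2.2.1
  have hWpos : 0 < WW X S ps := WW_pos X S ps
  obtain ⟨Bc, hBc1, hBc2⟩ := Bc_exists X (WW X S ps) hWpos
  set E := Et X S ps t with hE
  have hEE : EE X S ps ⊆ E := EE_sub_Et X S ps t
  have hEsup : E ⊆ Esup X ps := hEtsub ps S t htT
  have hres := Et_res (X := X) (S := S) (ps := ps) htinj
  have hPWsub : PW X S ps ⊆ Esup X ps := by
    refine Finset.Subset.trans ?_ (EE_sub hEf.2.2 (S := S))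
    unfold EE
    exact Finset.subset_union_left
  have hBVle : BVerr K0 X S ps Bc ≤ X / ((WW X S ps * BE (PW X S ps)) * (Real.log X) ^ (2 * K0 + 2)) := by
    have h1 := hbvS Bc hBc1
    rw [totient_WW] at h1
    refine le_trans ?_ h1
    unfold BVerr
    apply Finset.sum_le_sum
    intro q hq
    apply mul_le_mul_of_nonneg_right _ (abs_nonneg _)
    rw [Finset.mem_filter, Finset.mem_Icc] at hq
    have h2 : (1 : ℝ) ≤ (q.divisors.card : ℝ) := by
      have : 0 < q.divisors.card := Finset.card_pos.2 ⟨1, Nat.one_mem_divisors.2 (by omega)⟩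
      exact_mod_cast this
    exact pow_le_pow_right₀ h2 (by omega)
  have hMM : MPhi X / 400 ≤ LPhi X := by
    have := MPhi_le X (by linarith)
    linarith
  set V := (range (⌊T * Real.log X⌋₊ + 1)).filter (fun s => (∀ j, s ≠ t j) ∧ (a0 + s).Coprime (WW X S ps)) with hVdef
  have hlX : 0 ≤ Real.log X := Real.log_nonneg (by linarith)
  have hV1 : ∀ s ∈ V, (s : ℝ) ≤ T * Real.log X ∧ ∀ j, s ≠ t j := by
    intro s hs
    rw [hVdef, Finset.mem_filter, Finset.mem_range] at hs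
    refine ⟨?_, hs.2.1⟩
    exact (Nat.le_floor_iff (by positivity)).1 (by omega)
  have hpos := pos_atE K0 B r T hT f c A hf0 hA hf1 hIpos c0 (1 / 2) ε1 δ X hc0 (by norm_num) hε1pos hε1le hε1le2 hδ hratio
    ps a0 S t Bc hX40 hL1 hMM E hEsup hPWsub (hBEt (max Z 4) ps S t (le_max_right _ _) hps hS htT) V hBEl
    (hS1 ps S a0 t hS E hEE hEsup hres) (hS2 (max Z 4) ps S a0 t hps hS E hEE hEsup hres htT hcop Bc hBc2)
    (hTs ps S a0 t hS E hEE hEsup hres htT V hV1 (by exact_mod_cast hcard)) hBVle herrB herrBV bad hbad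
  obtain ⟨n, hn, hnpos⟩ : ∃ n ∈ Icc 1 ⌊3 * X⌋₊, 0 < (nu X (WW X S ps) a0 n *
      sqw E X f A (fun j => (n : ℤ) + t j) ^ 2) *
      ((∑ i, th (n + t i)) / Real.log (4 * X) - r -
      ((K0 + 1 : ℕ) : ℝ) / (1 / 2) * (∑ s ∈ V, (VVm (Es X S ps t s) (RR X) (LL X) fst ((n : ℤ) + s)) ^ 2) -
      ((K0 + 1 : ℕ) : ℝ) * (if n ∈ bad then 1 else 0)) := by
    by_contra hcon
    push Not at hcon
    exact absurd hpos (not_lt.2 (Finset.sum_nonpos hcon))
  have hWnn : 0 ≤ nu X (WW X S ps) a0 n * sqw E X f A (fun j => (n : ℤ) + t j) ^ 2 :=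
    mul_nonneg (nu_nonneg _ _ _ _) (sq_nonneg _)
  have hWpos' : 0 < nu X (WW X S ps) a0 n * sqw E X f A (fun j => (n : ℤ) + t j) ^ 2 := by
    rcases hWnn.eq_or_lt with h | h
    · rw [← h, zero_mul] at hnpos; exact absurd hnpos (lt_irrefl _)
    · exact h
  have hBrpos := (mul_pos_iff_of_pos_left hWpos').1 hnpos
  have hnu : nu X (WW X S ps) a0 n ≠ 0 := by
    intro h
    rw [h, zero_mul] at hWpos'
    exact lt_irrefl _ hWpos'
  have hXpos : 0 < X := by linarith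
  have hXn : X < n := by
    by_contra hle
    push Not at hle
    apply hnu
    unfold nu
    rw [Phi_eq_zero_of_le (by positivity) (by rw [div_le_one hXpos]; exact hle), ite_self]
  have hcl : n ≡ a0 [MOD WW X S ps] := by
    by_contra h
    apply hnu
    unfold nu
    rw [if_neg h]
  have hn3 : (n : ℝ) ≤ 3 * X := by
    rw [Finset.mem_Icc] at hn
    exact (Nat.cast_le.2 hn.2).trans (Nat.floor_le (by linarith))
  have hyX : (yy X : ℝ) < X := by
    have h1 : (yy X : ℝ) ≤ Real.log X / 1000 := Nat.floor_le (by positivity)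
    have h2 : Real.log X ≤ T * Real.log X := le_mul_of_one_le_left hlX hT
    linarith
  have hfin := finishE K0 r T X ps a0 S t htT hX40 hTX hRR.1 hRR.2 hyX V (by
    intro s hs hst hsc
    rw [hVdef, Finset.mem_filter, Finset.mem_range, Nat.lt_succ_iff]
    exact ⟨Nat.le_floor hs, hst, hsc⟩) bad n hXn hn3 hcl hBrpos
  exact ⟨n, hXn, hn3, hfin.1, hfin.2.1, hfin.2.2⟩

end Pool.Agent.H398R2.PG
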